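import Mathlib

set_option autoImplicit false
set_option linter.unusedSectionVars false

namespace Pool.Agent.H179R2.Surf

section Col

variable {V : Type} [Fintype V] [DecidableEq V] (G : SimpleGraph V) [DecidableRel G.Adj]
  {κ : Type} [DecidableEq κ] (L : V → Finset κ)

/-- `G[S]` has an `L`-colouring. -/
def PCol (S : Finset V) : Prop :=
  ∃ f : V → κ, (∀ v ∈ S, f v ∈ L v) ∧ ∀ u ∈ S, ∀ v ∈ S, G.Adj u v → f u ≠ f v

/-- degree inside `S` -/
def degS (S : Finset V) (v : V) : ℕ := (S.filter (G.Adj v)).card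

/-- `S` is a minimal non-colourable set -/
def Crit (S : Finset V) : Prop := ¬ PCol G L S ∧ ∀ T, T ⊂ S → PCol G L T

theorem exists_crit {S : Finset V} (h : ¬ PCol G L S) : ∃ T, T ⊆ S ∧ Crit G L T := by
  induction S using Finset.strongInduction with
  | H S ih =>
    by_cases hS : ∀ T, T ⊂ S → PCol G L T
    · exact ⟨S, Finset.Subset.refl _, h, hS⟩
    · push Not at hS
      obtain ⟨T, hT, hT'⟩ := hS
      obtain ⟨U, hU, hU'⟩ := ih T hT hT'
      exact ⟨U, hU.trans hT.subset, hU'⟩

theorem Crit.four_le {S : Finset V} (hS : Crit G L S) (hL : ∀ v, 4 ≤ (L v).card) {v : V}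
    (hv : v ∈ S) : 4 ≤ degS G S v := by
  by_contra hlt
  push Not at hlt
  obtain ⟨f, hf1, hf2⟩ := hS.2 (S.erase v) (Finset.erase_ssubset hv)
  have hcard : ((S.filter (G.Adj v)).image f).card < (L v).card :=
    lt_of_le_of_lt Finset.card_image_le (lt_of_lt_of_le hlt (hL v))
  obtain ⟨c, hc1, hc2⟩ := Finset.exists_mem_notMem_of_card_lt_card hcard
  apply hS.1
  refine ⟨Function.update f v c, ?_, ?_⟩
  · intro w hw
    by_cases hwv : w = v
    · subst hwv; simpa using hc1
    · rw [Function.update_of_ne hwv]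
      exact hf1 w (Finset.mem_erase.2 ⟨hwv, hw⟩)
  · intro u hu w hw huw
    by_cases huv : u = v
    · subst huv
      rw [Function.update_self, Function.update_of_ne huw.ne']
      intro h
      apply hc2
      rw [Finset.mem_image]
      exact ⟨w, Finset.mem_filter.2 ⟨hw, huw⟩, h.symm⟩
    · by_cases hwv : w = v
      · subst hwv
        rw [Function.update_self, Function.update_of_ne huv]
        intro h
        apply hc2
        rw [Finset.mem_image]
        exact ⟨u, Finset.mem_filter.2 ⟨hu, huw.symm⟩, h⟩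
      · rw [Function.update_of_ne huv, Function.update_of_ne hwv]
        exact hf2 u (Finset.mem_erase.2 ⟨huv, hu⟩) w (Finset.mem_erase.2 ⟨hwv, hw⟩) huw

/-- The 4-cycle is 2-choosable. -/
theorem four_cycle_choosable (A B C D : Finset κ) (hA : 2 ≤ A.card) (hB : 2 ≤ B.card)
    (hC : 2 ≤ C.card) (hD : 2 ≤ D.card) :
    ∃ a ∈ A, ∃ b ∈ B, ∃ c ∈ C, ∃ d ∈ D, a ≠ b ∧ b ≠ c ∧ c ≠ d ∧ d ≠ a := by
  have pick : ∀ (X : Finset κ) (x : κ), 2 ≤ X.card → ∃ y ∈ X, y ≠ x := by
    intro X x hX
    have : 1 < X.card := hX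
    obtain ⟨y, hy, hyx⟩ := Finset.exists_mem_ne this x
    exact ⟨y, hy, hyx⟩
  by_cases h1 : ∃ x, x ∈ A ∧ x ∈ C
  · obtain ⟨x, hxA, hxC⟩ := h1
    obtain ⟨b, hb, hbx⟩ := pick B x hB
    obtain ⟨d, hd, hdx⟩ := pick D x hD
    exact ⟨x, hxA, b, hb, x, hxC, d, hd, hbx.symm, hbx, hdx.symm, hdx⟩
  by_cases h2 : ∃ x, x ∈ B ∧ x ∈ D
  · obtain ⟨x, hxB, hxD⟩ := h2
    obtain ⟨a, ha, hax⟩ := pick A x hA
    obtain ⟨c, hc, hcx⟩ := pick C x hC
    exact ⟨a, ha, x, hxB, c, hc, x, hxD, hax, hcx.symm, hcx, hax.symm⟩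
  push Not at h1 h2
  obtain ⟨a, ha, a', ha', haa'⟩ := Finset.one_lt_card.1 (show 1 < A.card from hA)
  obtain ⟨c, hc⟩ : C.Nonempty := Finset.card_pos.1 (by omega)
  have hac : a ≠ c := fun h => h1 a ha (h ▸ hc)
  have ha'c : a' ≠ c := fun h => h1 a' ha' (h ▸ hc)
  -- failing set
  have fail : ∀ (X : Finset κ) (x y : κ), 2 ≤ X.card → (∀ z ∈ X, z = x ∨ z = y) →
      x ∈ X ∧ y ∈ X := by
    intro X x y hX hz
    have hsub : X ⊆ {x, y} := by
      intro z hzX
      rw [Finset.mem_insert, Finset.mem_singleton]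
      exact hz z hzX
    have hle : ({x, y} : Finset κ).card ≤ 2 := Finset.card_le_two
    have : X = {x, y} := Finset.eq_of_subset_of_card_le hsub (by omega)
    rw [this]
    simp
  by_cases hb : ∃ b ∈ B, b ≠ a ∧ b ≠ c
  · by_cases hd : ∃ d ∈ D, d ≠ a ∧ d ≠ c
    · obtain ⟨b, hb, hba, hbc⟩ := hb
      obtain ⟨d, hd, hda, hdc⟩ := hd
      exact ⟨a, ha, b, hb, c, hc, d, hd, hba.symm, hbc, hdc.symm, hda⟩
    · push Not at hd
      have hd' : ∀ z ∈ D, z = a ∨ z = c := by
        intro z hz
        by_cases hza : z = a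
        · exact Or.inl hza
        · exact Or.inr (hd z hz hza)
      obtain ⟨haD, hcD⟩ := fail D a c hD hd'
      -- use a' instead
      have hb' : ∃ b ∈ B, b ≠ a' ∧ b ≠ c := by
        obtain ⟨b, hbB, hba'⟩ := pick B a' hB
        exact ⟨b, hbB, hba', fun h => h2 b hbB (h ▸ hcD)⟩
      obtain ⟨b, hb, hba, hbc⟩ := hb'
      exact ⟨a', ha', b, hb, c, hc, a, haD, hba.symm, hbc, hac.symm, haa'⟩
  · push Not at hb
    have hb' : ∀ z ∈ B, z = a ∨ z = c := by
      intro z hz
      by_cases hza : z = a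
      · exact Or.inl hza
      · exact Or.inr (hb z hz hza)
    obtain ⟨haB, hcB⟩ := fail B a c hB hb'
    have hd' : ∃ d ∈ D, d ≠ a' ∧ d ≠ c := by
      obtain ⟨d, hdD, hda'⟩ := pick D a' hD
      exact ⟨d, hdD, hda', fun h => h2 d (h ▸ hcB) hdD⟩
    obtain ⟨d, hd, hda, hdc⟩ := hd'
    exact ⟨a', ha', a, haB, c, hc, d, hd, haa'.symm, hac, hdc.symm, hda⟩

/-- A critical graph has no chordless 4-cycle all of whose vertices have degree four. -/
theorem Crit.no_four_cycle {S : Finset V} (hS : Crit G L S) (hL : ∀ v, 4 ≤ (L v).card)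
    {v : Fin 4 → V} (hv : ∀ i, v i ∈ S) (hinj : Function.Injective v)
    (hadj : ∀ i, G.Adj (v i) (v (i + 1)))
    (h02 : ¬ G.Adj (v 0) (v 2)) (h13 : ¬ G.Adj (v 1) (v 3))
    (hdeg : ∀ i, degS G S (v i) ≤ 4) : False := by
  classical
  set T := S \ Finset.univ.image v with hT
  have hTS : T ⊂ S := by
    rw [Finset.ssubset_iff_of_subset Finset.sdiff_subset]
    exact ⟨v 0, hv 0, by simp⟩
  obtain ⟨f, hf1, hf2⟩ := hS.2 T hTS
  -- lists that remain
  let L' : Fin 4 → Finset κ := fun i => L (v i) \ ((T.filter (G.Adj (v i))).image f)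
  have hL' : ∀ i, 2 ≤ (L' i).card := by
    intro i
    have h1 : (T.filter (G.Adj (v i))).card + 2 ≤ 4 := by
      have hsub : insert (v (i + 1)) (insert (v (i + 3)) (T.filter (G.Adj (v i)))) ⊆
          S.filter (G.Adj (v i)) := by
        intro w hw
        rw [Finset.mem_insert, Finset.mem_insert] at hw
        rcases hw with rfl | rfl | hw
        · exact Finset.mem_filter.2 ⟨hv _, hadj i⟩
        · refine Finset.mem_filter.2 ⟨hv _, ?_⟩
          have := hadj (i + 3)
          rw [add_assoc, show (3 + 1 : Fin 4) = 0 from rfl, add_zero] at this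
          exact this.symm
        · rw [Finset.mem_filter] at hw ⊢
          exact ⟨(Finset.mem_sdiff.1 hw.1).1, hw.2⟩
      have hcard := Finset.card_le_card hsub
      rw [Finset.card_insert_of_notMem, Finset.card_insert_of_notMem] at hcard
      · exact hcard.trans (hdeg i)
      · simp [hT]
      · rw [Finset.mem_insert]
        rintro (h | h)
        · have key : ∀ i : Fin 4, i + 1 ≠ i + 3 := by decide
          exact key i (hinj h)
        · simp [hT] at h
    have h2 := Finset.le_card_sdiff ((T.filter (G.Adj (v i))).image f) (L (v i))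
    have h3 := hL (v i)
    have h4 : ((T.filter (G.Adj (v i))).image f).card ≤ (T.filter (G.Adj (v i))).card :=
      Finset.card_image_le
    change 2 ≤ (L (v i) \ ((T.filter (G.Adj (v i))).image f)).card
    omega
  obtain ⟨c0, hc0, c1, hc1, c2, hc2, c3, hc3, h01, h12, h23, h30⟩ :=
    four_cycle_choosable (L' 0) (L' 1) (L' 2) (L' 3) (hL' 0) (hL' 1) (hL' 2) (hL' 3)
  let cc : Fin 4 → κ := ![c0, c1, c2, c3]
  have hcc : ∀ i, cc i ∈ L' i := by
    intro i
    fin_cases i
    · exact hc0
    · exact hc1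
    · exact hc2
    · exact hc3
  apply hS.1
  -- the new colouring
  let F : V → κ := fun w => if h : ∃ i, v i = w then cc h.choose else f w
  have hF1 : ∀ i, F (v i) = cc i := by
    intro i
    have h : ∃ j, v j = v i := ⟨i, rfl⟩
    change (if h : ∃ j, v j = v i then cc h.choose else f (v i)) = cc i
    rw [dif_pos h]
    congr 1
    exact hinj h.choose_spec
  have hF2 : ∀ w ∈ T, F w = f w := by
    intro w hw
    have h : ¬ ∃ j, v j = w := by
      rintro ⟨j, rfl⟩
      simp [hT] at hw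
    change (if h : ∃ j, v j = w then cc h.choose else f w) = f w
    rw [dif_neg h]
  have hcase : ∀ w ∈ S, w ∈ T ∨ ∃ i, v i = w := by
    intro w hw
    by_cases h : ∃ i, v i = w
    · exact Or.inr h
    · left
      rw [hT, Finset.mem_sdiff]
      refine ⟨hw, ?_⟩
      simpa using h
  refine ⟨F, ?_, ?_⟩
  · intro w hw
    rcases hcase w hw with h | ⟨i, rfl⟩
    · rw [hF2 w h]; exact hf1 w h
    · rw [hF1]
      exact (Finset.mem_sdiff.1 (hcc i)).1
  · have hmix : ∀ i, ∀ w ∈ T, G.Adj (v i) w → F (v i) ≠ F w := by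
      intro i w hw hadj' heq
      rw [hF1, hF2 w hw] at heq
      apply (Finset.mem_sdiff.1 (hcc i)).2
      rw [Finset.mem_image]
      exact ⟨w, Finset.mem_filter.2 ⟨hw, hadj'⟩, heq.symm⟩
    intro u hu w hw huw
    rcases hcase u hu with h | ⟨i, rfl⟩
    · rcases hcase w hw with h' | ⟨j, rfl⟩
      · rw [hF2 u h, hF2 w h']; exact hf2 u h w h' huw
      · exact (hmix j u h huw.symm).symm
    · rcases hcase w hw with h' | ⟨j, rfl⟩
      · exact hmix i w h' huw
      · rw [hF1, hF1]
        have hne : i ≠ j := fun h => huw.ne (by rw [h])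
        have h20 : ¬ G.Adj (v 2) (v 0) := fun h => h02 h.symm
        have h31 : ¬ G.Adj (v 3) (v 1) := fun h => h13 h.symm
        fin_cases i <;> fin_cases j <;>
          first
          | exact absurd rfl hne
          | exact absurd huw h02
          | exact absurd huw h13
          | exact absurd huw h20
          | exact absurd huw h31
          | exact h01
          | exact h12
          | exact h23
          | exact h30
          | exact h01.symm
          | exact h12.symm
          | exact h23.symm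
          | exact h30.symm

end Col

end Pool.Agent.H179R2.Surf
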