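import Mathlib

set_option autoImplicit false

/-!
Graphs drawn on closed orientable surfaces.

A closed connected orientable surface is given by a cell decomposition of it, and the cell
decomposition is given by its rotation system (combinatorial map): the darts (edges with a
direction), the permutation `rot` that turns a dart to the next dart around its initial vertex, and
the reversal `rev` of darts.  Every drawing of a finite graph on a closed surface can be completed
to (the 1-skeleton of) a cell decomposition by adding vertices and edges inside its faces, so a graph
drawn on the surface is a subgraph of the 1-skeleton of a cell decomposition.  The drawn graph need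
not be connected and its faces need not be discs.
-/

namespace Pool.Agent.H179R2.Surf

/-- A finite cell decomposition of a closed connected orientable surface, as a combinatorial map:
`D` is the set of darts (edges with a direction), `rot` sends a dart to the next dart with the same
initial vertex in the order given by the orientation, `rev` reverses a dart, and all darts are
linked by these two permutations (connectedness). -/
structure CellMap (D : Type) where
  /-- next dart around the initial vertex -/
  rot : Equiv.Perm D
  /-- the reversed dart -/
  rev : Equiv.Perm D
  rev_rev : ∀ d, rev (rev d) = d
  rev_ne : ∀ d, rev d ≠ d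
  connected : ∀ a b : D, Relation.ReflTransGen (fun x y => y = rot x ∨ y = rev x) a b

namespace CellMap

variable {D : Type} (M : CellMap D)

/-- The face permutation: run along the dart `d`, then leave its final vertex by the dart following
the reverse of `d`.  Its orbits are the boundary walks of the cells. -/
def face : Equiv.Perm D := M.rev.trans M.rot

/-- The vertices of the cell decomposition: orbits of `rot`. -/
def Vertex : Type := Quotient (Equiv.Perm.SameCycle.setoid M.rot)

/-- The edges of the cell decomposition: orbits of `rev`. -/
def Edge : Type := Quotient (Equiv.Perm.SameCycle.setoid M.rev)

/-- The 2-cells of the cell decomposition: orbits of `face`. -/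
def Face : Type := Quotient (Equiv.Perm.SameCycle.setoid M.face)

/-- The initial vertex of a dart. -/
def tail (d : D) : M.Vertex := Quotient.mk (Equiv.Perm.SameCycle.setoid M.rot) d

/-- The surface has genus `g`: its Euler characteristic is `2 - 2 g`. -/
def HasGenus (g : ℕ) : Prop :=
  (Nat.card M.Vertex : ℤ) - Nat.card M.Edge + Nat.card M.Face = 2 - 2 * g

/-- A list of darts is a walk if each dart ends where the next one starts. -/
def IsWalk (l : List D) : Prop := l.IsChain (fun a b => M.tail (M.rev a) = M.tail b)

/-- The boundary walk of the 2-cell on the side of the dart `d`, starting with `d`. -/
noncomputable def boundary (d : D) : List D :=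
  (List.range (Function.minimalPeriod M.face d)).map fun i => M.face^[i] d

/-- Elementary homotopies of walks: inserting a dart followed by its reverse, or inserting the
boundary walk of a 2-cell. -/
inductive Move : List D → List D → Prop
  | spur (l₁ l₂ : List D) (d : D) (h : M.IsWalk (l₁ ++ l₂))
      (h' : M.IsWalk (l₁ ++ [d, M.rev d] ++ l₂)) : Move (l₁ ++ l₂) (l₁ ++ [d, M.rev d] ++ l₂)
  | cell (l₁ l₂ : List D) (d : D) (h : M.IsWalk (l₁ ++ l₂))
      (h' : M.IsWalk (l₁ ++ M.boundary d ++ l₂)) : Move (l₁ ++ l₂) (l₁ ++ M.boundary d ++ l₂)

/-- A closed walk is contractible on the surface if finitely many elementary homotopies and their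
inverses turn it into the trivial walk. -/
def Contractible (l : List D) : Prop := Relation.EqvGen M.Move l []

end CellMap

/-- A drawing of the graph `G` without crossings on the surface decomposed by `M`: `G` is identified
with a subgraph of the 1-skeleton of `M`. -/
structure Drawing {V : Type} (G : SimpleGraph V) {D : Type} (M : CellMap D) where
  vert : V → M.Vertex
  dart : G.Dart → D
  vert_injective : Function.Injective vert
  dart_injective : Function.Injective dart
  dart_symm : ∀ x : G.Dart, dart x.symm = M.rev (dart x)
  tail_dart : ∀ x : G.Dart, M.tail (dart x) = vert x.fst

namespace Drawing

variable {V : Type} {G : SimpleGraph V} {D : Type} {M : CellMap D} (e : Drawing G M)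

/-- The sides of the darts `a` and `b` lie in a common cell of `M`, or in two cells that meet along
an edge of `M` not belonging to `G`. -/
def SameSide (a b : D) : Prop := b = M.face a ∨ (b = M.rev a ∧ a ∉ Set.range e.dart)

/-- The faces of the drawn graph `G`, that is the connected components of the surface minus `G`:
classes of sides of darts. -/
def Region : Type := Quot e.SameSide

/-- The face of `G` on the side of a dart. -/
def region (d : D) : e.Region := Quot.mk _ d

/-- Every face of the drawn graph has even length.  The length of a face is the number of sides of
edges of `G` on it, that is the total length of its boundary walks. -/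
def EvenFaced : Prop :=
  ∀ r : e.Region, Even (Nat.card {x : G.Dart // e.region (e.dart x) = r})

end Drawing

/-- `G` is `k`-list colourable: for all lists of at least `k` colours at the vertices there is a
proper colouring taking the colour of each vertex from its list. -/
def ListColorable {V : Type} (G : SimpleGraph V) (k : ℕ) : Prop :=
  ∀ (κ : Type) (L : V → Finset κ), (∀ v, k ≤ (L v).card) →
    ∃ c : V → κ, (∀ v, c v ∈ L v) ∧ ∀ u v, G.Adj u v → c u ≠ c v

end Pool.Agent.H179R2.Surf
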