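import Mathlib
import Pool.Agent.H179R2.Surf.Defs

set_option autoImplicit false
set_option linter.unusedSectionVars false

namespace Pool.Agent.H179R2.Surf

open Module

section Inv

variable {D : Type}

/-- Functions invariant under a permutation. -/
def Inv (p : Equiv.Perm D) : Submodule (ZMod 2) (D → ZMod 2) where
  carrier := {f | ∀ d, f (p d) = f d}
  add_mem' := by
    intro a b ha hb d
    simp only [Pi.add_apply, ha d, hb d]
  zero_mem' := by intro d; rfl
  smul_mem' := by
    intro c a ha d
    simp only [Pi.smul_apply, ha d]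

theorem mem_Inv {p : Equiv.Perm D} {f : D → ZMod 2} : f ∈ Inv p ↔ ∀ d, f (p d) = f d := Iff.rfl

theorem Inv.zpow {p : Equiv.Perm D} {f : D → ZMod 2} (hf : f ∈ Inv p) (i : ℤ) (d : D) :
    f ((p ^ i) d) = f d := by
  have hn : ∀ (n : ℕ) (d : D), f ((p ^ n) d) = f d := by
    intro n
    induction n with
    | zero => intro d; simp
    | succ n ih =>
      intro d
      rw [pow_succ, Equiv.Perm.mul_apply, ih, hf d]
  cases i with
  | ofNat n => exact hn n d
  | negSucc n =>
    have h := hn (n + 1) ((p ^ (Int.negSucc n)) d)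
    rw [← h]
    congr 1
    rw [zpow_negSucc, ← Equiv.Perm.mul_apply, mul_inv_cancel, Equiv.Perm.one_apply]

theorem Inv.sameCycle {p : Equiv.Perm D} {f : D → ZMod 2} (hf : f ∈ Inv p) {a b : D}
    (h : p.SameCycle a b) : f a = f b := by
  obtain ⟨i, rfl⟩ := h
  exact (Inv.zpow hf i a).symm

/-- Invariant functions are functions on the orbits. -/
def invEquiv (p : Equiv.Perm D) :
    (Quotient (Equiv.Perm.SameCycle.setoid p) → ZMod 2) ≃ₗ[ZMod 2] Inv p where
  toFun f := ⟨fun d => f (Quotient.mk _ d), fun d => by
    have : (Quotient.mk (Equiv.Perm.SameCycle.setoid p) (p d)) =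
        Quotient.mk (Equiv.Perm.SameCycle.setoid p) d := by
      apply Quotient.sound
      exact Equiv.Perm.sameCycle_apply_left.2 (Equiv.Perm.SameCycle.refl _ _)
    exact congrArg f this⟩
  invFun f := Quotient.lift f.1 (fun a b h => Inv.sameCycle f.2 h)
  map_add' f g := by ext d; rfl
  map_smul' c f := by ext d; rfl
  left_inv f := by
    funext x
    induction x using Quotient.inductionOn with
    | h d => rfl
  right_inv f := by ext d; rfl

theorem finrank_Inv [Finite D] (p : Equiv.Perm D) :
    finrank (ZMod 2) (Inv p) = Nat.card (Quotient (Equiv.Perm.SameCycle.setoid p)) := by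
  have := Fintype.ofFinite D
  have : Fintype (Quotient (Equiv.Perm.SameCycle.setoid p)) := Fintype.ofFinite _
  rw [← (invEquiv p).finrank_eq, Module.finrank_fintype_fun_eq_card, Nat.card_eq_fintype_card]

end Inv

theorem zmod2_add_self (a : ZMod 2) : a + a = 0 := CharTwo.add_self_eq_zero a

theorem zmod2_eq_of_add_eq_zero {a b : ZMod 2} (h : a + b = 0) : a = b :=
  CharTwo.add_eq_zero.1 h

/-- The sum of a function invariant under a fixed point free involution is zero. -/
theorem sum_invol {X : Type} [Fintype X] (r : X → X) (h1 : ∀ x, r (r x) = x) (h2 : ∀ x, r x ≠ x)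
    (f : X → ZMod 2) (hf : ∀ x, f (r x) = f x) : ∑ x, f x = 0 := by
  refine Finset.sum_involution (fun a _ => r a) ?_ ?_ ?_ ?_
  · intro a _; rw [hf]; exact zmod2_add_self _
  · intro a _ _; exact h2 a
  · intro a _; exact Finset.mem_univ _
  · intro a _; exact h1 a

section Map

variable {D : Type} [Fintype D] [DecidableEq D] (M : CellMap D)

theorem CellMap.sum_rev (f : D → ZMod 2) (hf : f ∈ Inv M.rev) : ∑ x, f x = 0 :=
  sum_invol M.rev M.rev_rev M.rev_ne f hf

/-- invariant under rot and rev implies constant -/
theorem CellMap.const_of_inv {f : D → ZMod 2} (h1 : f ∈ Inv M.rot) (h2 : f ∈ Inv M.rev) (a b : D) :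
    f a = f b := by
  have := M.connected a b
  induction this with
  | refl => rfl
  | tail _ h ih =>
    rw [ih]
    rcases h with rfl | rfl
    · exact (h1 _).symm
    · exact (h2 _).symm

/-- the constants -/
theorem CellMap.finrank_const_le [Nonempty D] (W : Submodule (ZMod 2) (D → ZMod 2))
    (hW : ∀ f ∈ W, ∀ a b, f a = f b) : finrank (ZMod 2) W ≤ 1 := by
  obtain ⟨a⟩ := ‹Nonempty D›
  let ev : W →ₗ[ZMod 2] ZMod 2 := (LinearMap.proj a).comp W.subtype
  have hinj : Function.Injective ev := by
    rw [injective_iff_map_eq_zero]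
    intro f hf
    ext b
    have := hW f.1 f.2 a b
    have h0 : f.1 a = 0 := hf
    rw [← this, h0]
    rfl
  have := LinearMap.finrank_le_finrank_of_injective hinj
  simpa using this

/-- The pairing between invariant functions. -/
def pairing (W U : Submodule (ZMod 2) (D → ZMod 2)) : W →ₗ[ZMod 2] Module.Dual (ZMod 2) U where
  toFun y :=
    { toFun := fun z => ∑ d, y.1 d * z.1 d
      map_add' := by
        intro a b
        simp only [Submodule.coe_add, Pi.add_apply, mul_add, Finset.sum_add_distrib]
      map_smul' := by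
        intro c a
        simp only [Submodule.coe_smul, Pi.smul_apply, smul_eq_mul, RingHom.id_apply,
          Finset.mul_sum]
        refine Finset.sum_congr rfl fun d _ => by ring }
  map_add' := by
    intro a b
    ext z
    simp only [Submodule.coe_add, Pi.add_apply, add_mul, Finset.sum_add_distrib,
      LinearMap.coe_mk, AddHom.coe_mk, LinearMap.add_apply]
  map_smul' := by
    intro c a
    ext z
    simp only [Submodule.coe_smul, Pi.smul_apply, smul_eq_mul, RingHom.id_apply,
      LinearMap.coe_mk, AddHom.coe_mk, LinearMap.smul_apply, Finset.mul_sum]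
    refine Finset.sum_congr rfl fun d _ => by ring

/-- Cycles of the cell decomposition (mod 2). -/
def ZM : Submodule (ZMod 2) (D → ZMod 2) where
  carrier := {z | z ∈ Inv M.rev ∧ ∀ y ∈ Inv M.rot, ∑ d, y d * z d = 0}
  add_mem' := by
    rintro a b ⟨ha, ha'⟩ ⟨hb, hb'⟩
    refine ⟨Submodule.add_mem _ ha hb, fun y hy => ?_⟩
    simp only [Pi.add_apply, mul_add, Finset.sum_add_distrib, ha' y hy, hb' y hy, add_zero]
  zero_mem' := ⟨Submodule.zero_mem _, fun y _ => by simp⟩
  smul_mem' := by
    rintro c a ⟨ha, ha'⟩
    refine ⟨Submodule.smul_mem _ _ ha, fun y hy => ?_⟩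
    have : ∑ d, y d * (c • a) d = c * ∑ d, y d * a d := by
      rw [Finset.mul_sum]
      refine Finset.sum_congr rfl fun d _ => ?_
      simp only [Pi.smul_apply, smul_eq_mul]
      ring
    rw [this, ha' y hy, mul_zero]

theorem finrank_ZM_le [Nonempty D] :
    finrank (ZMod 2) (ZM M) + Nat.card M.Vertex ≤ Nat.card M.Edge + 1 := by
  classical
  let B := pairing (Inv M.rot) (Inv M.rev)
  have hker : finrank (ZMod 2) (LinearMap.ker B) ≤ 1 := by
    have h1 : finrank (ZMod 2) (LinearMap.ker B) =
        finrank (ZMod 2) ((LinearMap.ker B).map (Inv M.rot).subtype) :=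
      (LinearEquiv.finrank_eq (Submodule.equivMapOfInjective _ (Submodule.subtype_injective _) _))
    rw [h1]
    apply CellMap.finrank_const_le
    rintro f ⟨g, hg, rfl⟩ a b
    apply M.const_of_inv g.2
    intro d
    have h2 : B g = 0 := hg
    have h3 : B g ⟨fun x => if x = d ∨ x = M.rev d then 1 else 0, by
      intro x
      have : (M.rev x = d ∨ M.rev x = M.rev d) ↔ (x = d ∨ x = M.rev d) := by
        constructor
        · rintro (h | h)
          · right; rw [← h, M.rev_rev]
          · left; exact M.rev.injective h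
        · rintro (h | h)
          · right; rw [h]
          · left; rw [h, M.rev_rev]
      simp only [this]⟩ = 0 := by rw [h2]; rfl
    have h4 : ∑ x, g.1 x * (if x = d ∨ x = M.rev d then 1 else 0) = 0 := h3
    have h5 : ∑ x, g.1 x * (if x = d ∨ x = M.rev d then (1 : ZMod 2) else 0) =
        g.1 d + g.1 (M.rev d) := by
      have : ∀ x, g.1 x * (if x = d ∨ x = M.rev d then (1 : ZMod 2) else 0) =
          (if x = d then g.1 x else 0) + (if x = M.rev d then g.1 x else 0) := by
        intro x
        by_cases hx : x = d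
        · have : x ≠ M.rev d := by rw [hx]; exact (M.rev_ne d).symm
          simp [hx, (M.rev_ne d).symm]
        · by_cases hx' : x = M.rev d
          · simp [hx', M.rev_ne d]
          · simp [hx, hx']
      rw [Finset.sum_congr rfl fun x _ => this x, Finset.sum_add_distrib]
      simp
    rw [h5] at h4
    exact (zmod2_eq_of_add_eq_zero h4).symm
  have hrank := LinearMap.finrank_range_add_finrank_ker B
  have hZ : finrank (ZMod 2) (ZM M) ≤ finrank (ZMod 2) (LinearMap.range B).dualCoannihilator := by
    have hle : (ZM M) ≤ ((LinearMap.range B).dualCoannihilator).map (Inv M.rev).subtype := by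
      rintro z ⟨hz, hz'⟩
      refine ⟨⟨z, hz⟩, ?_, rfl⟩
      rw [SetLike.mem_coe, Submodule.mem_dualCoannihilator]
      rintro φ ⟨y, rfl⟩
      exact hz' y.1 y.2
    refine (Submodule.finrank_mono hle).trans ?_
    rw [(LinearEquiv.finrank_eq
      (Submodule.equivMapOfInjective _ (Submodule.subtype_injective (Inv M.rev)) _)).symm]
  have hd := Subspace.finrank_add_finrank_dualCoannihilator_eq (LinearMap.range B)
  rw [finrank_Inv] at hd
  rw [finrank_Inv] at hrank
  change _ = Nat.card M.Vertex at hrank
  change _ = Nat.card M.Edge at hd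
  omega

/-- The coboundary-type map `f ↦ f + f ∘ rev`. -/
def sumRev : (D → ZMod 2) →ₗ[ZMod 2] (D → ZMod 2) where
  toFun f := fun d => f d + f (M.rev d)
  map_add' f g := by funext d; simp only [Pi.add_apply]; ring
  map_smul' c f := by funext d; simp only [Pi.smul_apply, smul_eq_mul, RingHom.id_apply]; ring

/-- Boundaries of the cell decomposition (mod 2). -/
def BM : Submodule (ZMod 2) (D → ZMod 2) := (Inv M.face).map (sumRev M)

theorem mem_BM {z : D → ZMod 2} :
    z ∈ BM M ↔ ∃ f ∈ Inv M.face, ∀ d, z d = f d + f (M.rev d) := by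
  constructor
  · rintro ⟨f, hf, rfl⟩
    exact ⟨f, hf, fun d => rfl⟩
  · rintro ⟨f, hf, h⟩
    exact ⟨f, hf, by funext d; exact (h d).symm⟩

theorem BM_le_ZM : BM M ≤ ZM M := by
  intro z hz
  rw [mem_BM] at hz
  obtain ⟨f, hf, h⟩ := hz
  refine ⟨?_, ?_⟩
  · intro d
    rw [h, h, M.rev_rev, add_comm]
  · intro y hy
    have h1 : ∀ d, y d * z d = y d * f d + y d * f (M.rev d) := by
      intro d; rw [h]; ring
    rw [Finset.sum_congr rfl fun d _ => h1 d, Finset.sum_add_distrib]
    have h2 : ∑ d, y d * f (M.rev d) = ∑ d, y d * f d := by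
      rw [← Equiv.sum_comp M.rot (fun d => y d * f d)]
      rw [← Equiv.sum_comp M.rev (fun d => y (M.rot d) * f (M.rot d))]
      rw [← Equiv.sum_comp M.rev (fun d => y (M.rot (M.rev d)) * f (M.rot (M.rev d)))]
      refine Finset.sum_congr rfl fun d _ => ?_
      rw [M.rev_rev]
      have h3 : f (M.rot d) = f (M.rev d) := by
        have := hf (M.rev d)
        simp only [CellMap.face, Equiv.trans_apply, M.rev_rev] at this
        exact this
      rw [h3, hy]
    rw [h2]
    exact zmod2_add_self _

theorem Inv.rot_of_face_rev {f : D → ZMod 2} (h1 : f ∈ Inv M.face) (h2 : f ∈ Inv M.rev) :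
    f ∈ Inv M.rot := by
  intro d
  have := h1 (M.rev d)
  simp only [CellMap.face, Equiv.trans_apply, M.rev_rev] at this
  rw [this, h2]

theorem le_finrank_BM [Nonempty D] : Nat.card M.Face ≤ finrank (ZMod 2) (BM M) + 1 := by
  have hrank := LinearMap.finrank_range_add_finrank_ker ((sumRev M).domRestrict (Inv M.face))
  rw [finrank_Inv] at hrank
  change _ = Nat.card M.Face at hrank
  have h1 : LinearMap.range ((sumRev M).domRestrict (Inv M.face)) = BM M := by
    rw [BM, LinearMap.range_domRestrict]
  rw [h1] at hrank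
  have hker : finrank (ZMod 2) (LinearMap.ker ((sumRev M).domRestrict (Inv M.face))) ≤ 1 := by
    have h1 : finrank (ZMod 2) (LinearMap.ker ((sumRev M).domRestrict (Inv M.face))) =
        finrank (ZMod 2) ((LinearMap.ker ((sumRev M).domRestrict (Inv M.face))).map
          (Inv M.face).subtype) :=
      (LinearEquiv.finrank_eq (Submodule.equivMapOfInjective _ (Submodule.subtype_injective _) _))
    rw [h1]
    apply CellMap.finrank_const_le
    rintro f ⟨g, hg, rfl⟩ a b
    have hrev : g.1 ∈ Inv M.rev := by
      intro d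
      have h2 : (sumRev M) g.1 = 0 := hg
      have h3 := congrFun h2 d
      exact (zmod2_eq_of_add_eq_zero h3).symm
    exact M.const_of_inv (Inv.rot_of_face_rev M g.2 hrev) hrev a b
  omega

end Map

end Pool.Agent.H179R2.Surf
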