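import Mathlib
import Pool.Agent.H179R2.Surf.Lin

set_option autoImplicit false
set_option linter.unusedSectionVars false

namespace Pool.Agent.H179R2.Surf

open Module

section Ret

variable {D : Type} [Fintype D] (p : Equiv.Perm D) (A : Set D)

theorem exists_return (x : D) (hx : x ∈ A) : ∃ k, (p ^ (k + 1)) x ∈ A := by
  have h := isOfFinOrder_of_finite p
  obtain ⟨n, hn, hp⟩ := h.exists_pow_eq_one
  refine ⟨n - 1, ?_⟩
  rw [Nat.sub_add_cancel hn, hp]
  exact hx

open Classical in
/-- number of steps minus one of the first return -/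
noncomputable def retTime (x : A) : ℕ := Nat.find (exists_return p A x.1 x.2)

theorem retTime_spec (x : A) : (p ^ (retTime p A x + 1)) x.1 ∈ A := by
  classical
  exact Nat.find_spec (exists_return p A x.1 x.2)

theorem retTime_min (x : A) {j : ℕ} (hj : j < retTime p A x) : (p ^ (j + 1)) x.1 ∉ A := by
  classical
  exact Nat.find_min (exists_return p A x.1 x.2) hj

/-- first return -/
noncomputable def retFun (x : A) : A := ⟨(p ^ (retTime p A x + 1)) x.1, retTime_spec p A x⟩

theorem retFun_injective : Function.Injective (retFun p A) := by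
  have key : ∀ x y : A, retTime p A x ≤ retTime p A y → retFun p A x = retFun p A y → x = y := by
    intro x y hle h
    have h1 : (p ^ (retTime p A x + 1)) x.1 = (p ^ (retTime p A y + 1)) y.1 :=
      congrArg Subtype.val h
    obtain ⟨m, hm⟩ := Nat.exists_eq_add_of_le hle
    have h2 : (p ^ (retTime p A y + 1)) y.1 = (p ^ (retTime p A x + 1)) ((p ^ m) y.1) := by
      rw [← Equiv.Perm.mul_apply, ← pow_add, hm]
      congr 2
      ring
    rw [h2] at h1
    have h3 : x.1 = (p ^ m) y.1 := (p ^ (retTime p A x + 1)).injective h1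
    cases m with
    | zero =>
      apply Subtype.ext
      simpa using h3
    | succ m =>
      exfalso
      apply retTime_min p A y (j := m) (by omega)
      rw [← h3]
      exact x.2
  intro x y h
  rcases le_total (retTime p A x) (retTime p A y) with hle | hle
  · exact key x y hle h
  · exact (key y x hle h.symm).symm

/-- The permutation of `A` induced by `p`: first return to `A`. -/
noncomputable def ret : Equiv.Perm A :=
  Equiv.ofBijective (retFun p A) (Finite.injective_iff_bijective.1 (retFun_injective p A))

theorem ret_coe (x : A) : (ret p A x).1 = (p ^ (retTime p A x + 1)) x.1 := rfl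

/-- if the first return map fixes `x` then `x` is the only element of its cycle in `A`. -/
theorem ret_fixed {x : A} (h : ret p A x = x) {y : A} (hy : p.SameCycle x.1 y.1) : y = x := by
  have h1 : (p ^ (retTime p A x + 1)) x.1 = x.1 := congrArg Subtype.val h
  obtain ⟨n, hn⟩ := hy.exists_nat_pow_eq
  set k := retTime p A x + 1 with hk
  have h2 : ∀ q : ℕ, (p ^ (k * q)) x.1 = x.1 := by
    intro q
    induction q with
    | zero => simp
    | succ q ih => rw [mul_add, mul_one, pow_add, Equiv.Perm.mul_apply, h1, ih]
  have h3 : (p ^ (n % k)) x.1 = y.1 := by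
    have h5 : (p ^ n) x.1 = (p ^ (n % k)) x.1 := by
      conv_lhs => rw [← Nat.mod_add_div n k, pow_add, Equiv.Perm.mul_apply, h2]
    rw [← h5, hn]
  apply Subtype.ext
  rcases Nat.eq_zero_or_pos (n % k) with h4 | h4
  · rw [h4] at h3
    simpa using h3.symm
  · exfalso
    have h5 : n % k < k := Nat.mod_lt _ (by omega)
    apply retTime_min p A x (j := n % k - 1) (by omega)
    rw [Nat.sub_add_cancel h4, h3]
    exact y.2

end Ret

section Sub

variable {D : Type} [Fintype D] [DecidableEq D] (M : CellMap D) (A : Set D)
  (hA : ∀ d ∈ A, M.rev d ∈ A)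

/-- reversal on the subset of darts -/
def revA : Equiv.Perm A where
  toFun a := ⟨M.rev a.1, hA _ a.2⟩
  invFun a := ⟨M.rev a.1, hA _ a.2⟩
  left_inv _ := Subtype.ext (M.rev_rev _)
  right_inv _ := Subtype.ext (M.rev_rev _)

/-- The face permutation of the subgraph. -/
noncomputable def faceA : Equiv.Perm A := (revA M A hA).trans (ret M.rot A)

theorem tail_rot (d : D) : M.tail (M.rot d) = M.tail d := by
  apply Quotient.sound
  exact Equiv.Perm.sameCycle_apply_left.2 (Equiv.Perm.SameCycle.refl _ _)

theorem tail_rot_pow (n : ℕ) (d : D) : M.tail ((M.rot ^ n) d) = M.tail d := by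
  induction n with
  | zero => rfl
  | succ n ih => rw [pow_succ', Equiv.Perm.mul_apply, tail_rot, ih]

theorem tail_eq_iff {a b : D} : M.tail a = M.tail b ↔ M.rot.SameCycle a b := by
  constructor
  · intro h; exact Quotient.exact h
  · intro h; exact Quotient.sound h

theorem tail_faceA (a : A) : M.tail (faceA M A hA a).1 = M.tail (M.rev a.1) := by
  change M.tail (ret M.rot A (revA M A hA a)).1 = _
  rw [ret_coe, tail_rot_pow]
  rfl

/-- the key invariance -/
theorem inv_faceA {f : D → ZMod 2} (hf : f ∈ Inv M.face)
    (h0 : ∀ d ∉ A, f d + f (M.rev d) = 0) : (fun a : A => f a.1) ∈ Inv (faceA M A hA) := by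
  intro a
  change f (ret M.rot A (revA M A hA a)).1 = f a.1
  rw [ret_coe]
  have hstep : ∀ d, f (M.rot (M.rev d)) = f d := hf
  have key : ∀ j, j ≤ retTime M.rot A (revA M A hA a) →
      f ((M.rot ^ (j + 1)) (revA M A hA a).1) = f a.1 := by
    intro j
    induction j with
    | zero =>
      intro _
      rw [pow_one]
      exact hstep a.1
    | succ j ih =>
      intro hj
      have h1 := ih (by omega)
      have h2 := retTime_min M.rot A (revA M A hA a) (j := j) (by omega)
      rw [pow_succ', Equiv.Perm.mul_apply]
      set x := (M.rot ^ (j + 1)) (revA M A hA a).1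
      have h3 := zmod2_eq_of_add_eq_zero (h0 x h2)
      have h4 := hstep (M.rev x)
      rw [M.rev_rev] at h4
      rw [h4, ← h3, h1]
  exact key _ le_rfl

/-- symmetric functions supported on `A` -/
def CA : Submodule (ZMod 2) (D → ZMod 2) where
  carrier := {z | z ∈ Inv M.rev ∧ ∀ d ∉ A, z d = 0}
  add_mem' := by
    rintro a b ⟨ha, ha'⟩ ⟨hb, hb'⟩
    refine ⟨Submodule.add_mem _ ha hb, fun d hd => ?_⟩
    simp only [Pi.add_apply, ha' d hd, hb' d hd, add_zero]
  zero_mem' := ⟨Submodule.zero_mem _, fun y _ => rfl⟩
  smul_mem' := by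
    rintro c a ⟨ha, ha'⟩
    refine ⟨Submodule.smul_mem _ _ ha, fun d hd => ?_⟩
    simp only [Pi.smul_apply, ha' d hd, smul_zero]

open Classical in
/-- extension by zero of `u + u ∘ rev`. -/
noncomputable def Phi : (A → ZMod 2) →ₗ[ZMod 2] (D → ZMod 2) where
  toFun u := fun d => if h : d ∈ A then u ⟨d, h⟩ + u ⟨M.rev d, hA d h⟩ else 0
  map_add' u v := by
    funext d
    by_cases h : d ∈ A
    · simp only [h, dite_true, Pi.add_apply]; ring
    · simp only [h, dite_false, Pi.add_apply, add_zero]
  map_smul' c u := by
    funext d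
    by_cases h : d ∈ A
    · simp only [h, dite_true, Pi.smul_apply, smul_eq_mul, RingHom.id_apply]; ring
    · simp only [h, dite_false, Pi.smul_apply, smul_zero]

theorem Phi_mem (u : A → ZMod 2) : Phi M A hA u ∈ CA M A := by
  refine ⟨?_, ?_⟩
  · intro d
    by_cases h : d ∈ A
    · have h' := hA d h
      simp only [Phi, LinearMap.coe_mk, AddHom.coe_mk, h, h', dite_true]
      rw [add_comm]
      congr 2
      apply Subtype.ext
      exact M.rev_rev d
    · have h' : M.rev d ∉ A := by
        intro h'
        apply h
        have := hA _ h'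
        rwa [M.rev_rev] at this
      simp only [Phi, LinearMap.coe_mk, AddHom.coe_mk, h, h', dite_false]
  · intro d hd
    simp only [Phi, LinearMap.coe_mk, AddHom.coe_mk, hd, dite_false]

include hA in
open Classical in
theorem card_le_two_finrank_CA : Nat.card A ≤ 2 * finrank (ZMod 2) (CA M A) := by
  have hrank := LinearMap.finrank_range_add_finrank_ker (Phi M A hA)
  rw [Module.finrank_fintype_fun_eq_card, ← Nat.card_eq_fintype_card] at hrank
  have h1 : finrank (ZMod 2) (LinearMap.range (Phi M A hA)) ≤ finrank (ZMod 2) (CA M A) := by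
    apply Submodule.finrank_mono
    rintro _ ⟨u, rfl⟩
    exact Phi_mem M A hA u
  have h2 : finrank (ZMod 2) (LinearMap.ker (Phi M A hA)) ≤ finrank (ZMod 2) (CA M A) := by
    let ι : LinearMap.ker (Phi M A hA) →ₗ[ZMod 2] CA M A :=
      { toFun := fun u => ⟨fun d => if h : d ∈ A then u.1 ⟨d, h⟩ else 0, by
          refine ⟨?_, ?_⟩
          · intro d
            by_cases h : d ∈ A
            · have h' := hA d h
              simp only [h, h', dite_true]
              have h3 := congrFun (show Phi M A hA u.1 = 0 from u.2) d
              simp only [Phi, LinearMap.coe_mk, AddHom.coe_mk, h, dite_true, Pi.zero_apply] at h3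
              exact (zmod2_eq_of_add_eq_zero h3).symm
            · have h' : M.rev d ∉ A := by
                intro h'
                apply h
                have := hA _ h'
                rwa [M.rev_rev] at this
              simp only [h, h', dite_false]
          · intro d hd
            simp only [hd, dite_false]⟩
        map_add' := by
          intro u v
          apply Subtype.ext
          funext d
          by_cases h : d ∈ A
          · simp [h]
          · simp [h]
        map_smul' := by
          intro c u
          apply Subtype.ext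
          funext d
          by_cases h : d ∈ A
          · simp [h]
          · simp [h] }
    apply LinearMap.finrank_le_finrank_of_injective (f := ι)
    intro u v huv
    apply Subtype.ext
    funext a
    have h3 := congrFun (congrArg Subtype.val huv) a.1
    simpa [ι] using h3
  omega

theorem finrank_inter_le (hne : A.Nonempty) :
    finrank (ZMod 2) ((CA M A ⊓ ZM M) ⊓ BM M : Submodule (ZMod 2) (D → ZMod 2)) + 1 ≤
      Nat.card (Quotient (Equiv.Perm.SameCycle.setoid (faceA M A hA))) := by
  classical
  have hrank := LinearMap.finrank_range_add_finrank_ker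
    ((Phi M A hA).domRestrict (Inv (faceA M A hA)))
  rw [finrank_Inv] at hrank
  have h1 : finrank (ZMod 2) ((CA M A ⊓ ZM M) ⊓ BM M : Submodule (ZMod 2) (D → ZMod 2)) ≤
      finrank (ZMod 2) (LinearMap.range ((Phi M A hA).domRestrict (Inv (faceA M A hA)))) := by
    apply Submodule.finrank_mono
    rintro z ⟨⟨hz, _⟩, hz'⟩
    rw [SetLike.mem_coe, mem_BM] at hz'
    obtain ⟨f, hf, h⟩ := hz'
    have h0 : ∀ d ∉ A, f d + f (M.rev d) = 0 := by
      intro d hd
      rw [← h]
      exact hz.2 d hd
    refine ⟨⟨_, inv_faceA M A hA hf h0⟩, ?_⟩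
    funext d
    by_cases hd : d ∈ A
    · simp only [LinearMap.domRestrict_apply, Phi, LinearMap.coe_mk, AddHom.coe_mk, hd, dite_true]
      rw [h]
    · simp only [LinearMap.domRestrict_apply, Phi, LinearMap.coe_mk, AddHom.coe_mk, hd,
        dite_false]
      rw [hz.2 d hd]
  have h2 : 0 < finrank (ZMod 2) (LinearMap.ker ((Phi M A hA).domRestrict
      (Inv (faceA M A hA)))) := by
    rw [Module.finrank_pos_iff]
    refine ⟨⟨⟨⟨fun _ => 1, fun _ => rfl⟩, ?_⟩, 0, ?_⟩⟩
    · rw [LinearMap.mem_ker]
      funext d
      by_cases hd : d ∈ A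
      · simp only [LinearMap.domRestrict_apply, Phi, LinearMap.coe_mk, AddHom.coe_mk, hd,
          dite_true, Pi.zero_apply]
        exact zmod2_add_self 1
      · simp only [LinearMap.domRestrict_apply, Phi, LinearMap.coe_mk, AddHom.coe_mk, hd,
          dite_false, Pi.zero_apply]
    · intro h
      obtain ⟨a, ha⟩ := hne
      have h3 := congrFun (congrArg Subtype.val (congrArg Subtype.val h)) ⟨a, ha⟩
      exact one_ne_zero h3
  omega

theorem finrank_CA_le (hne : A.Nonempty) :
    finrank (ZMod 2) (CA M A) + 1 ≤
      finrank (ZMod 2) (CA M A ⊓ ZM M : Submodule (ZMod 2) (D → ZMod 2)) +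
        Nat.card (M.tail '' A) := by
  classical
  have : Fintype M.Vertex := by
    have : Finite M.Vertex := by unfold CellMap.Vertex; infer_instance
    exact Fintype.ofFinite _
  let τ : CA M A →ₗ[ZMod 2] ((M.tail '' A) → ZMod 2) :=
    { toFun := fun z t => ∑ d, if M.tail d = t.1 then z.1 d else 0
      map_add' := by
        intro u v
        funext t
        simp only [Submodule.coe_add, Pi.add_apply]
        rw [← Finset.sum_add_distrib]
        refine Finset.sum_congr rfl fun d _ => ?_
        split_ifs <;> simp
      map_smul' := by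
        intro c u
        funext t
        simp only [Submodule.coe_smul, Pi.smul_apply, smul_eq_mul, RingHom.id_apply]
        rw [Finset.mul_sum]
        refine Finset.sum_congr rfl fun d _ => ?_
        split_ifs <;> simp }
  have hrank := LinearMap.finrank_range_add_finrank_ker τ
  have hne' : (M.tail '' A).Nonempty := hne.image _
  have h1 : finrank (ZMod 2) (LinearMap.range τ) < Nat.card (M.tail '' A) := by
    have h2 : LinearMap.range τ ≠ ⊤ := by
      intro htop
      obtain ⟨t, ht⟩ := hne'
      have h3 : (Pi.single (⟨t, ht⟩ : (M.tail '' A)) (1 : ZMod 2)) ∈ LinearMap.range τ := by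
        rw [htop]; trivial
      obtain ⟨z, hz⟩ := h3
      have h4 : ∑ t : (M.tail '' A), τ z t = 1 := by
        rw [hz]
        exact Fintype.sum_pi_single' _ _
      have h5 : ∑ t : (M.tail '' A), τ z t = ∑ d, z.1 d := by
        change ∑ t : (M.tail '' A), ∑ d, (if M.tail d = t.1 then z.1 d else 0) = _
        rw [Finset.sum_comm]
        refine Finset.sum_congr rfl fun d _ => ?_
        by_cases hd : d ∈ A
        · have h6 : ∀ t : (M.tail '' A), (M.tail d = t.1) ↔
              t = (⟨M.tail d, d, hd, rfl⟩ : (M.tail '' A)) := by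
            intro t
            constructor
            · intro h; exact Subtype.ext h.symm
            · intro h; rw [h]
          simp only [h6]
          rw [Finset.sum_ite_eq']
          simp
        · rw [z.2.2 d hd]
          simp
      rw [h5, M.sum_rev _ z.2.1] at h4
      exact zero_ne_one h4
    have h3 := Submodule.finrank_lt h2
    rwa [Module.finrank_fintype_fun_eq_card, ← Nat.card_eq_fintype_card] at h3
  have h2 : finrank (ZMod 2) (LinearMap.ker τ) ≤
      finrank (ZMod 2) (CA M A ⊓ ZM M : Submodule (ZMod 2) (D → ZMod 2)) := by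
    rw [(LinearEquiv.finrank_eq
      (Submodule.equivMapOfInjective _ (Submodule.subtype_injective (CA M A)) (LinearMap.ker τ)))]
    apply Submodule.finrank_mono
    rintro _ ⟨z, hz, rfl⟩
    refine ⟨z.2, z.2.1, ?_⟩
    intro y hy
    have hz' : τ z = 0 := hz
    have h4 : ∀ d, y d * z.1 d =
        ∑ t : (M.tail '' A), (if M.tail d = t.1 then y d * z.1 d else 0) := by
      intro d
      by_cases hd : d ∈ A
      · have h6 : ∀ t : (M.tail '' A), (M.tail d = t.1) ↔
            t = (⟨M.tail d, d, hd, rfl⟩ : (M.tail '' A)) := by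
          intro t
          constructor
          · intro h; exact Subtype.ext h.symm
          · intro h; rw [h]
        simp only [h6]
        rw [Finset.sum_ite_eq']
        simp
      · rw [z.2.2 d hd]
        simp
    change ∑ d, y d * z.1 d = 0
    rw [Finset.sum_congr rfl fun d _ => h4 d, Finset.sum_comm]
    apply Finset.sum_eq_zero
    intro t _
    obtain ⟨a, ha, hat⟩ := t.2
    have h7 : ∀ d, (if M.tail d = t.1 then y d * z.1 d else 0) =
        y a * (if M.tail d = t.1 then z.1 d else 0) := by
      intro d
      split_ifs with h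
      · rw [← hat] at h
        rw [Inv.sameCycle hy ((tail_eq_iff M).1 h)]
      · simp
    rw [Finset.sum_congr rfl fun d _ => h7 d, ← Finset.mul_sum]
    have h8 := congrFun hz' t
    change ∑ d, (if M.tail d = t.1 then z.1 d else 0) = 0 at h8
    rw [h8, mul_zero]
  omega

/-- Euler's inequality for subgraphs. -/
theorem euler_sub [Nonempty D] {g : ℕ} (hg : M.HasGenus g) (hne : A.Nonempty) :
    Nat.card A + 4 ≤ 2 * Nat.card (Quotient (Equiv.Perm.SameCycle.setoid (faceA M A hA))) +
      2 * Nat.card (M.tail '' A) + 4 * g := by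
  have h1 := card_le_two_finrank_CA M A hA
  have h2 := finrank_inter_le M A hA hne
  have h3 := finrank_CA_le M A hne
  have h4 := finrank_ZM_le M
  have h5 := le_finrank_BM M
  have h6 : finrank (ZMod 2) (CA M A ⊓ ZM M : Submodule (ZMod 2) (D → ZMod 2)) +
      finrank (ZMod 2) (BM M) ≤ finrank (ZMod 2) (ZM M) +
      finrank (ZMod 2) ((CA M A ⊓ ZM M) ⊓ BM M : Submodule (ZMod 2) (D → ZMod 2)) := by
    rw [← Submodule.finrank_sup_add_finrank_inf_eq]
    have : finrank (ZMod 2) ((CA M A ⊓ ZM M) ⊔ BM M : Submodule (ZMod 2) (D → ZMod 2)) ≤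
        finrank (ZMod 2) (ZM M) :=
      Submodule.finrank_mono (sup_le inf_le_right (BM_le_ZM M))
    omega
  unfold CellMap.HasGenus at hg
  omega

/-- Euler's inequality for subgraphs whose cycles bound. -/
theorem euler_sub_planar (hne : A.Nonempty) (hb : CA M A ⊓ ZM M ≤ BM M) :
    Nat.card A + 4 ≤ 2 * Nat.card (Quotient (Equiv.Perm.SameCycle.setoid (faceA M A hA))) +
      2 * Nat.card (M.tail '' A) := by
  have h1 := card_le_two_finrank_CA M A hA
  have h2 := finrank_inter_le M A hA hne
  have h3 := finrank_CA_le M A hne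
  rw [inf_eq_left.2 hb] at h2
  omega

end Sub

end Pool.Agent.H179R2.Surf
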