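import Mathlib
import Pool.Agent.H179R2.Surf.Ret

set_option autoImplicit false
set_option linter.unusedSectionVars false

namespace Pool.Agent.H179R2.Surf

open Module

section Homology

variable {D : Type} [Fintype D] [DecidableEq D] (M : CellMap D)

/-- number of passages of a list through the edge of a dart, mod 2 -/
def zOf (l : List D) : D → ZMod 2 := sumRev M (fun d => (l.count d : ZMod 2))

theorem zOf_apply (l : List D) (d : D) :
    zOf M l d = (l.count d : ZMod 2) + (l.count (M.rev d) : ZMod 2) := rfl

theorem zOf_nil : zOf M [] = 0 := by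
  funext d
  simp [zOf_apply]

theorem zOf_append (l₁ l₂ : List D) : zOf M (l₁ ++ l₂) = zOf M l₁ + zOf M l₂ := by
  funext d
  simp only [zOf_apply, List.count_append, Pi.add_apply]
  push_cast
  ring

theorem zOf_spur (d : D) : zOf M [d, M.rev d] = 0 := by
  funext x
  simp only [zOf_apply, List.count_cons, List.count_nil, Pi.zero_apply]
  have h1 : (d == M.rev x) = (M.rev d == x) := by
    rw [Bool.eq_iff_iff]
    simp only [beq_iff_eq]
    constructor
    · rintro rfl; exact M.rev_rev x
    · rintro rfl; exact (M.rev_rev d).symm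
  have h2 : (M.rev d == M.rev x) = (d == x) := by
    rw [Bool.eq_iff_iff]
    simp only [beq_iff_eq]
    exact M.rev.injective.eq_iff
  rw [h1, h2]
  push_cast
  generalize (if (d == x) = true then (1 : ZMod 2) else 0) = a
  generalize (if (M.rev d == x) = true then (1 : ZMod 2) else 0) = b
  linear_combination zmod2_add_self a + zmod2_add_self b

theorem mem_boundary (d x : D) : x ∈ M.boundary d ↔ ∃ n : ℕ, (M.face)^[n] d = x := by
  have hp : d ∈ Function.periodicPts M.face := by
    have h := isOfFinOrder_of_finite M.face
    obtain ⟨n, hn, hp⟩ := h.exists_pow_eq_one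
    refine ⟨n, hn, ?_⟩
    unfold Function.IsPeriodicPt Function.IsFixedPt
    rw [← Equiv.Perm.coe_pow, hp]
    rfl
  exact Function.mem_periodicOrbit_iff hp

theorem nodup_boundary (d : D) : (M.boundary d).Nodup :=
  Function.nodup_periodicOrbit (f := M.face) (x := d)

theorem zOf_boundary_mem (d : D) : zOf M (M.boundary d) ∈ BM M := by
  refine ⟨fun x => ((M.boundary d).count x : ZMod 2), ?_, rfl⟩
  intro x
  have h : M.face x ∈ M.boundary d ↔ x ∈ M.boundary d := by
    rw [mem_boundary, mem_boundary]
    constructor
    · rintro ⟨n, hn⟩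
      have hf := isOfFinOrder_of_finite M.face
      obtain ⟨m, hm, hp⟩ := hf.exists_pow_eq_one
      refine ⟨n + (m - 1), ?_⟩
      rw [add_comm, Function.iterate_add_apply, hn]
      rw [← Function.iterate_succ_apply, Nat.succ_eq_add_one, Nat.sub_add_cancel hm,
        ← Equiv.Perm.coe_pow, hp]
      rfl
    · rintro ⟨n, hn⟩
      exact ⟨n + 1, by rw [Function.iterate_succ_apply', hn]⟩
  have hn := nodup_boundary M d
  change (((M.boundary d).count (M.face x) : ℕ) : ZMod 2) = (((M.boundary d).count x : ℕ) : ZMod 2)
  by_cases hx : x ∈ M.boundary d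
  · rw [List.count_eq_one_of_mem hn hx, List.count_eq_one_of_mem hn (h.2 hx)]
  · rw [List.count_eq_zero_of_not_mem hx, List.count_eq_zero_of_not_mem (fun h' => hx (h.1 h'))]

theorem move_mem {l l' : List D} (h : M.Move l l') : zOf M l + zOf M l' ∈ BM M := by
  cases h with
  | spur l₁ l₂ d _ _ =>
    have : zOf M (l₁ ++ l₂) + zOf M (l₁ ++ [d, M.rev d] ++ l₂) = 0 := by
      rw [zOf_append, zOf_append, zOf_append, zOf_spur, add_zero]
      funext x
      exact zmod2_add_self _
    rw [this]
    exact Submodule.zero_mem _
  | cell l₁ l₂ d _ _ =>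
    have : zOf M (l₁ ++ l₂) + zOf M (l₁ ++ M.boundary d ++ l₂) = zOf M (M.boundary d) := by
      rw [zOf_append, zOf_append, zOf_append]
      funext x
      simp only [Pi.add_apply]
      linear_combination zmod2_add_self (zOf M l₁ x) + zmod2_add_self (zOf M l₂ x)
    rw [this]
    exact zOf_boundary_mem M d

theorem contractible_mem {l : List D} (h : M.Contractible l) : zOf M l ∈ BM M := by
  have key : ∀ l l' : List D, Relation.EqvGen M.Move l l' → zOf M l + zOf M l' ∈ BM M := by
    intro l l' h
    induction h with
    | rel _ _ h => exact move_mem M h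
    | refl l =>
      have : zOf M l + zOf M l = 0 := by
        funext x
        exact zmod2_add_self _
      rw [this]
      exact Submodule.zero_mem _
    | symm _ _ _ ih => rw [add_comm]; exact ih
    | trans a b c _ _ ih1 ih2 =>
      have : zOf M a + zOf M c = (zOf M a + zOf M b) + (zOf M b + zOf M c) := by
        funext x
        simp only [Pi.add_apply]
        linear_combination - zmod2_add_self (zOf M b x)
      rw [this]
      exact Submodule.add_mem _ ih1 ih2
  have := key _ _ h
  rwa [zOf_nil, add_zero] at this

end Homology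

section Even

variable {V : Type} {G : SimpleGraph V} {D : Type} [Fintype D] [DecidableEq D] {M : CellMap D}
  (e : Drawing G M)

theorem Drawing.count_dart [DecidableEq V] (l : List G.Dart) (x : G.Dart) :
    (l.map e.dart).count (e.dart x) = l.count x :=
  List.count_map_of_injective l e.dart e.dart_injective x

theorem Drawing.range_rev {d : D} (h : M.rev d ∈ Set.range e.dart) : d ∈ Set.range e.dart := by
  obtain ⟨x, hx⟩ := h
  refine ⟨x.symm, ?_⟩
  rw [e.dart_symm, hx, M.rev_rev]

theorem Drawing.even_of_bound (he : e.EvenFaced) {v : V} (c : G.Walk v v)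
    (hc : zOf M (c.darts.map e.dart) ∈ BM M) : Even c.length := by
  classical
  have : Finite G.Dart := Finite.of_injective _ e.dart_injective
  have : Fintype G.Dart := Fintype.ofFinite _
  rw [mem_BM] at hc
  obtain ⟨f, hf, h⟩ := hc
  -- f factors through regions
  have hfac : ∀ a b, e.SameSide a b → f a = f b := by
    rintro a b (rfl | ⟨rfl, ha⟩)
    · exact (hf a).symm
    · have h1 := h a
      have h2 : a ∉ c.darts.map e.dart := by
        intro h3
        obtain ⟨x, _, hx⟩ := List.mem_map.1 h3
        exact ha ⟨x, hx⟩
      have h3 : M.rev a ∉ c.darts.map e.dart := by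
        intro h3
        obtain ⟨x, _, hx⟩ := List.mem_map.1 h3
        exact ha (e.range_rev ⟨x, hx⟩)
      rw [zOf_apply, List.count_eq_zero_of_not_mem h2, List.count_eq_zero_of_not_mem h3] at h1
      apply zmod2_eq_of_add_eq_zero
      rw [← h1]
      simp
  let F : e.Region → ZMod 2 := Quot.lift f hfac
  have hs1 : ∑ x : G.Dart, f (e.dart x) = 0 := by
    have h1 : ∀ x : G.Dart, f (e.dart x) = F (e.region (e.dart x)) := fun x => rfl
    rw [Finset.sum_congr rfl fun x _ => h1 x]
    rw [Finset.sum_comp F (fun x : G.Dart => e.region (e.dart x))]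
    apply Finset.sum_eq_zero
    intro r _
    have h2 := he r
    rw [Nat.card_eq_fintype_card, Fintype.card_subtype] at h2
    obtain ⟨k, hk⟩ := h2
    rw [hk, nsmul_eq_mul]
    have : ((k + k : ℕ) : ZMod 2) = 0 := by
      push_cast
      exact zmod2_add_self _
    rw [this, zero_mul]
  have hs2 : ∑ x : G.Dart, (f (e.dart x) + (c.darts.count x : ZMod 2)) = 0 := by
    apply sum_invol SimpleGraph.Dart.symm (fun x => x.symm_symm) (fun x => x.symm_ne)
    intro x
    have h1 := h (e.dart x)
    rw [zOf_apply, ← e.dart_symm, e.count_dart, e.count_dart] at h1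
    linear_combination h1 + zmod2_add_self (f (e.dart x.symm)) -
      zmod2_add_self (c.darts.count x : ZMod 2)
  rw [Finset.sum_add_distrib, hs1, zero_add] at hs2
  have hs3 : ∑ x : G.Dart, c.darts.count x = c.length := by
    rw [← c.length_darts]
    have := Multiset.sum_count_eq_card (s := Finset.univ) (m := (c.darts : Multiset G.Dart))
      (fun a _ => Finset.mem_univ a)
    simpa using this
  have hs4 : ((c.length : ℕ) : ZMod 2) = 0 := by
    rw [← hs3]
    push_cast
    exact hs2
  exact (ZMod.natCast_eq_zero_iff_even).1 hs4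

end Even

end Pool.Agent.H179R2.Surf
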