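import Mathlib
import Pool.Agent.H179R2.Surf.Hom

set_option autoImplicit false
set_option linter.unusedSectionVars false

namespace Pool.Agent.H179R2.Surf

open Module

/-- A finite graph with an edge, in which no vertex has degree one, has a cycle. -/
theorem exists_cycle {V : Type} [Finite V] (H : SimpleGraph V) {a b : V} (hab : H.Adj a b)
    (h2 : ∀ u v, H.Adj u v → ∃ w, w ≠ v ∧ H.Adj u w) :
    ∃ (v : V) (c : H.Walk v v), c.IsCycle := by
  classical
  by_contra hcon
  push Not at hcon
  have hac : H.IsAcyclic := fun v c => hcon v c
  have : Nonempty V := ⟨a⟩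
  obtain ⟨u, v, p, hp, hmax⟩ := SimpleGraph.Walk.exists_isPath_forall_isPath_length_le_length H
  have hlen : 1 ≤ p.length := by
    have hq : (SimpleGraph.Walk.cons hab SimpleGraph.Walk.nil).IsPath := by
      simp [SimpleGraph.Walk.cons_isPath_iff, hab.ne]
    have := hmax _ _ _ hq
    simpa using this
  have hnn : ¬ p.Nil := by
    intro h
    rw [← SimpleGraph.Walk.length_eq_zero_iff] at h
    omega
  obtain ⟨w, hw, huw⟩ := h2 u p.snd (p.adj_snd hnn)
  have hws : w ∉ p.support := fun h => hw (hac.eq_snd_of_adj_start hp huw h)
  have hq : (SimpleGraph.Walk.cons huw.symm p).IsPath := by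
    rw [SimpleGraph.Walk.cons_isPath_iff]
    exact ⟨hp, hws⟩
  have := hmax _ _ _ hq
  rw [SimpleGraph.Walk.length_cons] at this
  omega

section Cyc

variable {V : Type} {G : SimpleGraph V} {D : Type} [Fintype D] [DecidableEq D] {M : CellMap D}
  (e : Drawing G M) (S : Set V)

/-- The darts of the subgraph induced on `S`. -/
def dartsOf : Set D := {d | ∃ x : G.Dart, x.fst ∈ S ∧ x.snd ∈ S ∧ e.dart x = d}

theorem dartsOf_rev : ∀ d ∈ dartsOf e S, M.rev d ∈ dartsOf e S := by
  rintro d ⟨x, h1, h2, rfl⟩
  exact ⟨x.symm, h2, h1, e.dart_symm x⟩

/-- If the cycles inside `S` bound then all mod 2 cycles supported on `S` bound. -/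
theorem cycles_bound [Finite V]
    (hc : ∀ (v : V) (c : G.Walk v v), c.IsCycle → (∀ w ∈ c.support, w ∈ S) →
      zOf M (c.darts.map e.dart) ∈ BM M) :
    CA M (dartsOf e S) ⊓ ZM M ≤ BM M := by
  classical
  have main : ∀ (n : ℕ) (z : D → ZMod 2), z ∈ CA M (dartsOf e S) ⊓ ZM M →
      (Finset.univ.filter fun d => z d ≠ 0).card ≤ n → z ∈ BM M := by
    intro n
    induction n with
    | zero =>
      intro z _ hn
      have : z = 0 := by
        funext d
        by_contra hd
        have : d ∈ (Finset.univ.filter fun d => z d ≠ 0) := by simpa using hd
        rw [Finset.card_eq_zero.1 (Nat.le_zero.1 hn)] at this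
        simp at this
      rw [this]
      exact Submodule.zero_mem _
    | succ n ih =>
      intro z hz hn
      by_cases hz0 : z = 0
      · rw [hz0]; exact Submodule.zero_mem _
      obtain ⟨⟨hzrev, hzA⟩, hzM⟩ := hz
      -- the support graph
      let H : SimpleGraph V :=
        { Adj := fun u v => ∃ x : G.Dart, x.fst = u ∧ x.snd = v ∧ z (e.dart x) ≠ 0
          symm := ⟨by
            rintro u v ⟨x, rfl, rfl, h⟩
            refine ⟨x.symm, rfl, rfl, ?_⟩
            rw [e.dart_symm, hzrev]
            exact h⟩
          loopless := ⟨by
            rintro u ⟨x, h1, h2, _⟩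
            exact x.adj.ne (h1.trans h2.symm)⟩ }
      have hHG : H ≤ G := by
        rintro u v ⟨x, rfl, rfl, _⟩
        exact x.adj
      have hHS : ∀ u v, H.Adj u v → u ∈ S ∧ v ∈ S := by
        rintro u v ⟨x, rfl, rfl, h⟩
        have h1 : e.dart x ∈ dartsOf e S := by
          by_contra h2
          exact h (hzA _ h2)
        obtain ⟨y, h3, h4, h5⟩ := h1
        have := e.dart_injective h5
        subst this
        exact ⟨h3, h4⟩
      -- an edge
      obtain ⟨d0, hd0⟩ : ∃ d, z d ≠ 0 := by
        by_contra hcon
        push Not at hcon
        exact hz0 (funext hcon)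
      have hd0A : d0 ∈ dartsOf e S := by
        by_contra h2
        exact hd0 (hzA _ h2)
      obtain ⟨x0, _, _, rfl⟩ := hd0A
      have hedge : H.Adj x0.fst x0.snd := ⟨x0, rfl, rfl, hd0⟩
      -- degrees
      have hdeg : ∀ u v, H.Adj u v → ∃ w, w ≠ v ∧ H.Adj u w := by
        rintro u v ⟨x, rfl, rfl, hx⟩
        by_contra hcon
        push Not at hcon
        have h1 := hzM.2 (fun d => if M.tail d = e.vert x.fst then 1 else 0) (by
          intro d
          simp only [tail_rot])
        have h2 : ∀ d, (if M.tail d = e.vert x.fst then (1 : ZMod 2) else 0) * z d =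
            if d = e.dart x then z (e.dart x) else 0 := by
          intro d
          by_cases hd : d = e.dart x
          · rw [hd, e.tail_dart]
            simp
          · rw [if_neg hd]
            by_cases ht : M.tail d = e.vert x.fst
            · rw [if_pos ht, one_mul]
              by_contra hzd
              have h3 : d ∈ dartsOf e S := by
                by_contra h2
                exact hzd (hzA _ h2)
              obtain ⟨y, h4, h5, rfl⟩ := h3
              rw [e.tail_dart] at ht
              have h6 := e.vert_injective ht
              have h7 : y.snd ≠ x.snd := by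
                intro h8
                apply hd
                congr 1
                ext <;> assumption
              exact hcon y.snd h7 ⟨y, h6, rfl, hzd⟩
            · rw [if_neg ht, zero_mul]
        rw [Finset.sum_congr rfl fun d _ => h2 d] at h1
        rw [Finset.sum_ite_eq'] at h1
        simp only [Finset.mem_univ, if_true] at h1
        exact hx h1
      obtain ⟨v, c, hcyc⟩ := exists_cycle H hedge hdeg
      have hcG : (c.mapLe hHG).IsCycle := hcyc.mapLe hHG
      have hadj : ∀ x ∈ (c.mapLe hHG).darts, z (e.dart x) ≠ 0 := by
        intro x hx
        have h1 : x.edge ∈ (c.mapLe hHG).edges := by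
          unfold SimpleGraph.Walk.edges
          exact List.mem_map.2 ⟨x, hx, rfl⟩
        rw [SimpleGraph.Walk.edges_mapLe_eq_edges] at h1
        have h2 : H.Adj x.fst x.snd := by
          have := SimpleGraph.Walk.edges_subset_edgeSet c h1
          exact this
        obtain ⟨y, hy1, hy2, hy3⟩ := h2
        have : y = x := by ext <;> assumption
        rwa [this] at hy3
      have hsupp : ∀ w ∈ (c.mapLe hHG).support, w ∈ S := by
        intro w hw
        rw [SimpleGraph.Walk.support_mapLe_eq_support] at hw
        have hnn : ¬ c.Nil := hcyc.not_nil
        obtain ⟨x, hx, hwx⟩ : ∃ x ∈ c.darts, w = x.fst ∨ w = x.snd := by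
          rw [SimpleGraph.Walk.mem_support_iff_exists_mem_edges_of_not_nil hnn] at hw
          obtain ⟨ed, hed, hwe⟩ := hw
          obtain ⟨x, hx, rfl⟩ := List.mem_map.1 hed
          refine ⟨x, hx, ?_⟩
          have : w ∈ (s(x.fst, x.snd) : Sym2 V) := hwe
          rwa [Sym2.mem_iff] at this
        have := hHS _ _ x.adj
        rcases hwx with rfl | rfl
        · exact this.1
        · exact this.2
      have hb := hc v _ hcG hsupp
      set zc := zOf M ((c.mapLe hHG).darts.map e.dart) with hzc
      -- support of zc
      have hzc_supp : ∀ d, z d = 0 → zc d = 0 := by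
        intro d hd
        rw [hzc, zOf_apply]
        have h2 : d ∉ (c.mapLe hHG).darts.map e.dart := by
          intro h3
          obtain ⟨x, hx, rfl⟩ := List.mem_map.1 h3
          exact hadj x hx hd
        have h3 : M.rev d ∉ (c.mapLe hHG).darts.map e.dart := by
          intro h3
          obtain ⟨x, hx, hxd⟩ := List.mem_map.1 h3
          apply hadj x hx
          rw [hxd, hzrev]
          exact hd
        rw [List.count_eq_zero_of_not_mem h2, List.count_eq_zero_of_not_mem h3]
        simp
      -- a dart where zc is nonzero
      obtain ⟨x1, hx1⟩ : ∃ x1, x1 ∈ (c.mapLe hHG).darts := by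
        have hne : (c.mapLe hHG).darts ≠ [] := by
          intro h
          have h1 := (c.mapLe hHG).length_darts
          rw [h, List.length_nil] at h1
          have h2 := hcG.three_le_length
          omega
        exact List.exists_mem_of_ne_nil _ hne
      have hnd : ((c.mapLe hHG).edges).Nodup := hcG.edges_nodup
      have hx1c : zc (e.dart x1) = 1 := by
        rw [hzc, zOf_apply, ← e.dart_symm, e.count_dart, e.count_dart]
        have h1 : (c.mapLe hHG).darts.count x1 = 1 := by
          apply List.count_eq_one_of_mem _ hx1
          exact List.Nodup.of_map _ hnd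
        have h2 : (c.mapLe hHG).darts.count x1.symm = 0 := by
          apply List.count_eq_zero_of_not_mem
          intro h3
          have h4 := List.inj_on_of_nodup_map hnd hx1 h3 (by simp)
          exact x1.symm_ne h4.symm
        rw [h1, h2]
        simp
      have hz' : z + zc ∈ BM M := by
        apply ih
        · refine ⟨⟨?_, ?_⟩, ?_⟩
          · exact Submodule.add_mem _ hzrev (BM_le_ZM M hb).1
          · intro d hd
            rw [Pi.add_apply, hzA d hd, hzc_supp d (hzA d hd), add_zero]
          · exact Submodule.add_mem _ hzM (BM_le_ZM M hb)
        · have hlt : (Finset.univ.filter fun d => (z + zc) d ≠ 0).card <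
              (Finset.univ.filter fun d => z d ≠ 0).card := by
            apply Finset.card_lt_card
            rw [Finset.ssubset_iff_of_subset]
            · refine ⟨e.dart x1, ?_, ?_⟩
              · simpa using hadj x1 hx1
              · simp only [Finset.mem_filter, Finset.mem_univ, true_and, not_not, Pi.add_apply]
                rw [hx1c]
                have := hadj x1 hx1
                revert this
                generalize z (e.dart x1) = t
                revert t
                decide
            · intro d hd
              simp only [Finset.mem_filter, Finset.mem_univ, true_and, Pi.add_apply] at hd ⊢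
              intro h0
              apply hd
              rw [h0, hzc_supp d h0, add_zero]
          omega
      have : z = (z + zc) + zc := by
        funext d
        simp only [Pi.add_apply]
        linear_combination - zmod2_add_self (zc d)
      rw [this]
      exact Submodule.add_mem _ hz' hb
  intro z hz
  exact main _ z hz le_rfl

end Cyc

end Pool.Agent.H179R2.Surf
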