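import Mathlib
import Pool.Agent.H179R2.Surf.Cyc
import Pool.Agent.H179R2.Surf.Col

set_option autoImplicit false
set_option linter.unusedSectionVars false

namespace Pool.Agent.H179R2.Surf

section Main

variable {V : Type} [Fintype V] [DecidableEq V] {G : SimpleGraph V} [DecidableRel G.Adj]
  {D : Type} [Fintype D] [DecidableEq D] {M : CellMap D}
  (e : Drawing G M) (S : Finset V)

/-- the graph dart of an element of `dartsOf`. -/
noncomputable def gd (a : dartsOf e (S : Set V)) : G.Dart := a.2.choose

theorem gd_fst (a : dartsOf e (S : Set V)) : (gd e S a).fst ∈ S := by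
  have := a.2.choose_spec.1
  exact_mod_cast this

theorem gd_snd (a : dartsOf e (S : Set V)) : (gd e S a).snd ∈ S := by
  have := a.2.choose_spec.2.1
  exact_mod_cast this

theorem dart_gd (a : dartsOf e (S : Set V)) : e.dart (gd e S a) = a.1 := a.2.choose_spec.2.2

/-- face permutation -/
noncomputable abbrev φA : Equiv.Perm (dartsOf e (S : Set V)) :=
  faceA M (dartsOf e (S : Set V)) (dartsOf_rev e _)

theorem gd_face_fst (a : dartsOf e (S : Set V)) :
    (gd e S (φA e S a)).fst = (gd e S a).snd := by
  apply e.vert_injective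
  rw [← e.tail_dart, dart_gd, tail_faceA, ← dart_gd e S a, ← e.dart_symm, e.tail_dart]
  rfl

theorem gd_face_ne (a : dartsOf e (S : Set V)) (hdeg : 2 ≤ degS G S (gd e S a).snd) :
    gd e S (φA e S a) ≠ (gd e S a).symm := by
  intro h
  have h1 : φA e S a = revA M _ (dartsOf_rev e _) a := by
    apply Subtype.ext
    change _ = M.rev a.1
    rw [← dart_gd e S (φA e S a), h, e.dart_symm, dart_gd]
  have h2 : ret M.rot (dartsOf e (S : Set V)) (revA M _ (dartsOf_rev e _) a) =
      revA M _ (dartsOf_rev e _) a := h1
  -- there are two darts at the vertex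
  obtain ⟨w1, hw1, w2, hw2, hne⟩ := Finset.one_lt_card.1
    (show 1 < (S.filter (G.Adj (gd e S a).snd)).card from hdeg)
  rw [Finset.mem_filter] at hw1 hw2
  have key : ∀ w, w ∈ S → ∀ (hadj : G.Adj (gd e S a).snd w),
      e.dart ⟨((gd e S a).snd, w), hadj⟩ = M.rev a.1 := by
    intro w hw hadj
    have hmem : e.dart ⟨((gd e S a).snd, w), hadj⟩ ∈ dartsOf e (S : Set V) :=
      ⟨_, by exact_mod_cast gd_snd e S a, by exact_mod_cast hw, rfl⟩
    have := ret_fixed M.rot _ h2 (y := ⟨_, hmem⟩) (by
      rw [← tail_eq_iff]
      change M.tail (M.rev a.1) = M.tail (e.dart _)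
      rw [e.tail_dart, ← dart_gd e S a, ← e.dart_symm, e.tail_dart]
      rfl)
    exact congrArg Subtype.val this
  have h3 := (key w1 hw1.1 hw1.2).trans (key w2 hw2.1 hw2.2).symm
  have h4 := e.dart_injective h3
  apply hne
  have h5 := congrArg (fun x : G.Dart => x.snd) h4
  exact h5

/-- number of darts equals the sum of the degrees -/
theorem card_dartsOf : Nat.card (dartsOf e (S : Set V)) = ∑ v ∈ S, degS G S v := by
  classical
  have h1 : Nat.card (dartsOf e (S : Set V)) =
      Nat.card (Σ v : S, {w // w ∈ S.filter (G.Adj v.1)}) := by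
    apply Nat.card_congr
    refine Equiv.ofBijective (fun a => ⟨⟨(gd e S a).fst, gd_fst e S a⟩, ⟨(gd e S a).snd,
      Finset.mem_filter.2 ⟨gd_snd e S a, (gd e S a).adj⟩⟩⟩) ⟨?_, ?_⟩
    · intro a b h
      have h2 : gd e S a = gd e S b := by
        simp only [Sigma.mk.injEq, Subtype.mk.injEq] at h
        obtain ⟨h3, h4⟩ := h
        have h5 : (gd e S a).snd = (gd e S b).snd := by
          have : ∀ (u u' : S) (x : {w // w ∈ S.filter (G.Adj u.1)})
              (y : {w // w ∈ S.filter (G.Adj u'.1)}), u = u' → HEq x y → x.1 = y.1 := by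
            rintro u u' x y rfl hxy
            rw [eq_of_heq hxy]
          exact this ⟨_, gd_fst e S a⟩ ⟨_, gd_fst e S b⟩ _ _ (Subtype.ext h3) h4
        ext <;> assumption
      apply Subtype.ext
      rw [← dart_gd e S a, h2, dart_gd]
    · rintro ⟨v, w⟩
      have hw := Finset.mem_filter.1 w.2
      let x : G.Dart := ⟨(v.1, w.1), hw.2⟩
      have hmem : e.dart x ∈ dartsOf e (S : Set V) :=
        ⟨x, by exact_mod_cast v.2, by exact_mod_cast hw.1, rfl⟩
      refine ⟨⟨e.dart x, hmem⟩, ?_⟩
      have h3 : gd e S ⟨e.dart x, hmem⟩ = x := e.dart_injective (dart_gd e S ⟨e.dart x, hmem⟩)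
      have h4 : (gd e S ⟨e.dart x, hmem⟩).fst = v.1 := by rw [h3]
      have h5 : (gd e S ⟨e.dart x, hmem⟩).snd = w.1 := by rw [h3]
      have : ∀ (u u' : S) (x : {w // w ∈ S.filter (G.Adj u.1)})
          (y : {w // w ∈ S.filter (G.Adj u'.1)}), u = u' → x.1 = y.1 →
          (⟨u, x⟩ : (Σ v : S, {w // w ∈ S.filter (G.Adj v.1)})) = ⟨u', y⟩ := by
        rintro u u' x y rfl hxy
        rw [Subtype.ext hxy]
      exact this _ _ _ _ (Subtype.ext h4) h5
  rw [h1, Nat.card_sigma, ← Finset.sum_coe_sort S]
  refine Finset.sum_congr rfl fun v _ => ?_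
  rw [Nat.card_eq_fintype_card, Fintype.card_coe]
  rfl

theorem card_tail_le : Nat.card (M.tail '' (dartsOf e (S : Set V))) ≤ S.card := by
  classical
  have h1 : M.tail '' (dartsOf e (S : Set V)) ⊆ e.vert '' (S : Set V) := by
    rintro _ ⟨d, ⟨x, h1, h2, rfl⟩, rfl⟩
    exact ⟨x.fst, h1, (e.tail_dart x).symm⟩
  have hfin : (e.vert '' (S : Set V)).Finite := (Finset.finite_toSet S).image _
  have h2 := Set.ncard_le_ncard h1 hfin
  have h3 : (e.vert '' (S : Set V)).ncard ≤ (S : Set V).ncard :=
    Set.ncard_image_le (Finset.finite_toSet S)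
  rw [Set.ncard_coe_finset] at h3
  exact h2.trans h3

/-- high darts -/
def High (a : dartsOf e (S : Set V)) : Prop := 5 ≤ degS G S (gd e S a).fst

theorem card_high : Nat.card {a : dartsOf e (S : Set V) // High e S a} + 20 * S.card ≤
    5 * Nat.card (dartsOf e (S : Set V)) ∨ ∃ v ∈ S, degS G S v < 4 := by
  classical
  by_cases h4 : ∃ v ∈ S, degS G S v < 4
  · exact Or.inr h4
  left
  push Not at h4
  have h1 : Nat.card {a : dartsOf e (S : Set V) // High e S a} ≤
      ∑ v ∈ S, (if 5 ≤ degS G S v then degS G S v else 0) := by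
    have h2 : Nat.card {a : dartsOf e (S : Set V) // High e S a} ≤
        Nat.card (Σ v : {v // v ∈ S.filter (fun v => 5 ≤ degS G S v)},
          {w // w ∈ S.filter (G.Adj v.1)}) := by
      apply Nat.card_le_card_of_injective (fun a => ⟨⟨(gd e S a.1).fst,
        Finset.mem_filter.2 ⟨gd_fst e S a.1, a.2⟩⟩, ⟨(gd e S a.1).snd,
        Finset.mem_filter.2 ⟨gd_snd e S a.1, (gd e S a.1).adj⟩⟩⟩)
      intro a b h
      have h2 : gd e S a.1 = gd e S b.1 := by
        simp only [Sigma.mk.injEq, Subtype.mk.injEq] at h
        obtain ⟨h3, h4⟩ := h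
        have h5 : (gd e S a.1).snd = (gd e S b.1).snd := by
          have : ∀ (u u' : {v // v ∈ S.filter (fun v => 5 ≤ degS G S v)})
              (x : {w // w ∈ S.filter (G.Adj u.1)})
              (y : {w // w ∈ S.filter (G.Adj u'.1)}), u = u' → HEq x y → x.1 = y.1 := by
            rintro u u' x y rfl hxy
            rw [eq_of_heq hxy]
          exact this ⟨_, Finset.mem_filter.2 ⟨gd_fst e S a.1, a.2⟩⟩
            ⟨_, Finset.mem_filter.2 ⟨gd_fst e S b.1, b.2⟩⟩ _ _ (Subtype.ext h3) h4
        ext <;> assumption
      apply Subtype.ext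
      apply Subtype.ext
      rw [← dart_gd e S a.1, h2, dart_gd]
    refine h2.trans ?_
    rw [Nat.card_sigma, ← Finset.sum_filter,
      ← Finset.sum_coe_sort (S.filter (fun v => 5 ≤ degS G S v))]
    apply le_of_eq
    refine Finset.sum_congr rfl fun v _ => ?_
    rw [Nat.card_eq_fintype_card, Fintype.card_coe]
    rfl
  have h2 : ∑ v ∈ S, (if 5 ≤ degS G S v then degS G S v else 0) + ∑ v ∈ S, 20 ≤
      ∑ v ∈ S, 5 * degS G S v := by
    rw [← Finset.sum_add_distrib]
    apply Finset.sum_le_sum
    intro v hv
    have := h4 v hv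
    split_ifs with h
    · omega
    · omega
  rw [← Finset.mul_sum, ← card_dartsOf e S, Finset.sum_const, smul_eq_mul] at h2
  omega

/-- The counting argument: bound on the number of vertices. -/
theorem orbit_count
    (hdeg : ∀ v ∈ S, 4 ≤ degS G S v)
    (htri : ∀ u v w, G.Adj u v → G.Adj v w → ¬ G.Adj w u)
    (hfour : ∀ v : Fin 4 → V, (∀ i, v i ∈ S) → Function.Injective v →
      (∀ i, G.Adj (v i) (v (i + 1))) → (∀ i, degS G S (v i) ≤ 4) → False) :
    ∃ Q5 : ℕ, 4 * Nat.card (Quotient (Equiv.Perm.SameCycle.setoid (φA e S))) + Q5 ≤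
        Nat.card (dartsOf e (S : Set V)) ∧
      Nat.card (Quotient (Equiv.Perm.SameCycle.setoid (φA e S))) ≤ Q5 +
        Nat.card {a : dartsOf e (S : Set V) // High e S a} := by
  classical
  set A := dartsOf e (S : Set V) with hA
  set φ := φA e S with hφ
  set Q := Quotient (Equiv.Perm.SameCycle.setoid φ) with hQ
  have : Fintype A := Fintype.ofFinite _
  have : Fintype Q := Fintype.ofFinite _
  let mk : A → Q := fun a => Quotient.mk _ a
  have mkφ : ∀ a, mk (φ a) = mk a := by
    intro a
    apply Quotient.sound
    exact Equiv.Perm.sameCycle_apply_left.2 (Equiv.Perm.SameCycle.refl _ _)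
  let len : Q → ℕ := fun q => (Finset.univ.filter fun a => mk a = q).card
  let hi : Q → ℕ := fun q => (Finset.univ.filter fun a => mk a = q ∧ High e S a).card
  have hlen : ∑ q, len q = Nat.card A := by
    rw [Nat.card_eq_fintype_card, ← Finset.card_univ]
    exact (Finset.card_eq_sum_card_fiberwise (f := mk) (s := Finset.univ) (t := Finset.univ)
      (fun _ _ => Finset.mem_univ _)).symm
  have hhi : ∑ q, hi q = Nat.card {a : A // High e S a} := by
    rw [Nat.card_eq_fintype_card, Fintype.card_subtype]
    rw [Finset.card_eq_sum_card_fiberwise (f := mk) (s := Finset.univ.filter (High e S))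
      (t := Finset.univ) (fun _ _ => Finset.mem_univ _)]
    refine Finset.sum_congr rfl fun q _ => ?_
    change (Finset.univ.filter fun a => mk a = q ∧ High e S a).card = _
    congr 1
    ext a
    simp only [Finset.mem_filter, Finset.mem_univ, true_and]
    tauto
  have main : ∀ q, 4 + (if 5 ≤ len q then 1 else 0) ≤ len q ∧
      1 ≤ (if 5 ≤ len q then 1 else 0) + hi q := by
    intro q
    obtain ⟨a, rfl⟩ : ∃ a, mk a = q := Quotient.exists_rep q
    -- the first darts of the facial walk
    let x : ℕ → A := fun n => (φ^[n]) a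
    have xs : ∀ n, x (n + 1) = φ (x n) := fun n => Function.iterate_succ_apply' _ _ _
    have xmk : ∀ n, mk (x n) = mk a := by
      intro n
      induction n with
      | zero => rfl
      | succ n ih => rw [xs, mkφ, ih]
    let v : ℕ → V := fun n => (gd e S (x n)).fst
    have vs : ∀ n, v (n + 1) = (gd e S (x n)).snd := by
      intro n
      change (gd e S (x (n + 1))).fst = _
      rw [xs]
      exact gd_face_fst e S (x n)
    have vS : ∀ n, v n ∈ S := fun n => gd_fst e S (x n)
    have vadj : ∀ n, G.Adj (v n) (v (n + 1)) := by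
      intro n
      rw [vs]
      exact (gd e S (x n)).adj
    have vne : ∀ n, v (n + 2) ≠ v n := by
      intro n h
      apply gd_face_ne e S (x n) (by have := hdeg _ (gd_snd e S (x n)); omega)
      ext
      · rw [gd_face_fst]; rfl
      · change _ = (gd e S (x n)).fst
        have h1 : v (n + 2) = (gd e S (x (n + 1))).snd := vs (n + 1)
        rw [xs] at h1
        rw [← h1, h]
    have v3 : v 3 ≠ v 0 := by
      intro h
      apply htri (v 0) (v 1) (v 2) (vadj 0) (vadj 1)
      rw [← h]
      exact vadj 2
    have hinj4 : Function.Injective (fun i : Fin 4 => v i) := by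
      have h01 := (vadj 0).ne
      have h12 := (vadj 1).ne
      have h23 := (vadj 2).ne
      have h20 := vne 0
      have h31 := vne 1
      simp only [Nat.zero_add] at h01 h12 h23 h20 h31
      intro i j hij
      fin_cases i <;> fin_cases j <;>
        first
        | rfl
        | exact absurd hij h01
        | exact absurd hij h12
        | exact absurd hij h23
        | exact absurd hij h20
        | exact absurd hij h31
        | exact absurd hij v3
        | exact absurd hij.symm h01
        | exact absurd hij.symm h12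
        | exact absurd hij.symm h23
        | exact absurd hij.symm h20
        | exact absurd hij.symm h31
        | exact absurd hij.symm v3
    have xinj : Function.Injective (fun i : Fin 4 => x i) := by
      intro i j hij
      apply hinj4
      change v i = v j
      have : x i = x j := hij
      change (gd e S (x i)).fst = (gd e S (x j)).fst
      rw [this]
    have hsub : (Finset.univ.image fun i : Fin 4 => x i) ⊆
        Finset.univ.filter fun b => mk b = mk a := by
      intro b hb
      obtain ⟨i, _, rfl⟩ := Finset.mem_image.1 hb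
      simp only [Finset.mem_filter, Finset.mem_univ, true_and]
      exact xmk i
    have hc4 : (Finset.univ.image fun i : Fin 4 => x i).card = 4 := by
      rw [Finset.card_image_of_injective _ xinj]
      rfl
    have hlen4 : 4 ≤ len (mk a) := by
      rw [← hc4]
      exact Finset.card_le_card hsub
    by_cases h5 : 5 ≤ len (mk a)
    · rw [if_pos h5]
      omega
    · rw [if_neg h5]
      refine ⟨by omega, ?_⟩
      have heq : (Finset.univ.image fun i : Fin 4 => x i) =
          Finset.univ.filter fun b => mk b = mk a := by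
        apply Finset.eq_of_subset_of_card_le hsub
        rw [hc4]
        change len (mk a) ≤ 4
        omega
      have hx4 : x 4 = x 0 := by
        have h6 : x 4 ∈ Finset.univ.filter fun b => mk b = mk a := by
          simp only [Finset.mem_filter, Finset.mem_univ, true_and]
          exact xmk 4
        rw [← heq] at h6
        obtain ⟨i, _, hi⟩ := Finset.mem_image.1 h6
        have h7 : x 4 = φ (x 3) := xs 3
        fin_cases i
        · exact hi.symm
        · exfalso
          have h8 : φ (x 0) = φ (x 3) := by rw [← xs, ← h7]; exact hi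
          have h9 := φ.injective h8
          have := xinj (a₁ := 0) (a₂ := 3) h9
          exact absurd this (by decide)
        · exfalso
          have h8 : φ (x 1) = φ (x 3) := by rw [← xs, ← h7]; exact hi
          have h9 := φ.injective h8
          have := xinj (a₁ := 1) (a₂ := 3) h9
          exact absurd this (by decide)
        · exfalso
          have h8 : φ (x 2) = φ (x 3) := by rw [← xs, ← h7]; exact hi
          have h9 := φ.injective h8
          have := xinj (a₁ := 2) (a₂ := 3) h9
          exact absurd this (by decide)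
      by_contra hcon
      have hhi0 : hi (mk a) = 0 := by omega
      have hnone : ∀ n, ¬ High e S (x n) := by
        intro n hn
        have : x n ∈ Finset.univ.filter fun b => mk b = mk a ∧ High e S b := by
          simp only [Finset.mem_filter, Finset.mem_univ, true_and]
          exact ⟨xmk n, hn⟩
        rw [Finset.card_eq_zero.1 hhi0] at this
        simp at this
      apply hfour (fun i : Fin 4 => v i) (fun i => vS i) hinj4
      · intro i
        have hv4 : v 4 = v 0 := by
          change (gd e S (x 4)).fst = (gd e S (x 0)).fst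
          rw [hx4]
        fin_cases i
        · exact vadj 0
        · exact vadj 1
        · exact vadj 2
        · change G.Adj (v 3) (v 0)
          rw [← hv4]
          exact vadj 3
      · intro i
        have := hnone i
        unfold High at this
        have h9 : degS G S (v i) < 5 := not_le.1 this
        change degS G S (v i) ≤ 4
        omega
  refine ⟨∑ q, (if 5 ≤ len q then 1 else 0), ?_, ?_⟩
  · rw [← hlen, Nat.card_eq_fintype_card, ← Finset.card_univ, mul_comm, ← smul_eq_mul,
      ← Finset.sum_const, ← Finset.sum_add_distrib]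
    exact Finset.sum_le_sum fun q _ => (main q).1
  · rw [← hhi, Nat.card_eq_fintype_card, ← Finset.card_univ, Finset.card_eq_sum_ones,
      ← Finset.sum_add_distrib]
    exact Finset.sum_le_sum fun q _ => (main q).2

theorem triangle_free (he : e.EvenFaced)
    (hc : ∀ (v : V) (c : G.Walk v v), c.IsCycle → ¬ M.Contractible (c.darts.map e.dart) →
      4 ≤ c.length) : ∀ u v w, G.Adj u v → G.Adj v w → ¬ G.Adj w u := by
  intro u v w huv hvw hwu
  let c : G.Walk u u := .cons huv (.cons hvw (.cons hwu .nil))
  have hcyc : c.IsCycle := by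
    simp only [c, SimpleGraph.Walk.cons_isCycle_iff, SimpleGraph.Walk.cons_isPath_iff]
    have h1 := huv.ne
    have h2 := hvw.ne
    have h3 := hwu.ne
    simp [h1, h2, h3, h1.symm, h2.symm, h3.symm]
  have hcon : M.Contractible (c.darts.map e.dart) := by
    by_contra hcon
    have := hc _ c hcyc hcon
    simp [c] at this
  have := e.even_of_bound he c (contractible_mem M hcon)
  simp only [c, SimpleGraph.Walk.length_cons, SimpleGraph.Walk.length_nil] at this
  revert this
  decide

theorem four_list_aux [Nonempty D] {g : ℕ} (hg : M.HasGenus g) (he : e.EvenFaced)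
    (hc : ∀ (v : V) (c : G.Walk v v), c.IsCycle → ¬ M.Contractible (c.darts.map e.dart) →
      42 * g + 4 ≤ c.length) {κ : Type} [DecidableEq κ] (L : V → Finset κ)
    (hL : ∀ v, 4 ≤ (L v).card) : PCol G L Finset.univ := by
  classical
  by_contra hcon
  obtain ⟨S, _, hS⟩ := exists_crit G L hcon
  have hne : S.Nonempty := by
    by_contra hemp
    rw [Finset.not_nonempty_iff_eq_empty] at hemp
    apply hS.1
    rw [hemp]
    have h0 : ∀ v, ∃ c, c ∈ L v := fun v => by
      have h1 := hL v
      have h2 : (L v).Nonempty := Finset.card_pos.1 (by omega)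
      exact h2
    exact ⟨fun v => (h0 v).choose, by simp, by simp⟩
  have hdeg : ∀ v ∈ S, 4 ≤ degS G S v := fun v hv => hS.four_le G L hL hv
  have htri := triangle_free e he (fun v c h1 h2 => by have := hc v c h1 h2; omega)
  have hfour : ∀ v : Fin 4 → V, (∀ i, v i ∈ S) → Function.Injective v →
      (∀ i, G.Adj (v i) (v (i + 1))) → (∀ i, degS G S (v i) ≤ 4) → False := by
    intro v hv hinj hadj hd
    refine hS.no_four_cycle G L hL hv hinj hadj ?_ ?_ hd
    · intro h
      exact htri _ _ _ (hadj 0) (hadj 1) h.symm
    · intro h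
      exact htri _ _ _ (hadj 1) (hadj 2) h.symm
  obtain ⟨Q5, hq1, hq2⟩ := orbit_count e S hdeg htri hfour
  unfold φA at hq1 hq2
  have hhigh := card_high e S
  rcases hhigh with hhigh | ⟨v, hv, hv4⟩
  swap
  · have := hdeg v hv; omega
  have hcardA : 4 * S.card ≤ Nat.card (dartsOf e (S : Set V)) := by
    rw [card_dartsOf, mul_comm, ← smul_eq_mul, ← Finset.sum_const]
    exact Finset.sum_le_sum fun v hv => hdeg v hv
  have hSpos : 0 < S.card := Finset.card_pos.2 hne
  have hneA : (dartsOf e (S : Set V)).Nonempty := by
    rw [Set.nonempty_iff_ne_empty]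
    intro h
    have h0 : Nat.card (dartsOf e (S : Set V)) = 0 := by
      rw [h]
      simp
    omega
  have htail := card_tail_le e S
  have heuler := euler_sub M (dartsOf e (S : Set V)) (dartsOf_rev e _) hg hneA
  have hsmall : S.card ≤ 42 * g := by omega
  -- all cycles inside S are short
  have hb := cycles_bound e (S : Set V) (by
    intro v c hcyc hsupp
    by_contra hnb
    have hnc : ¬ M.Contractible (c.darts.map e.dart) := fun h => hnb (contractible_mem M h)
    have h1 := hc v c hcyc hnc
    have h2 : c.support.tail.toFinset ⊆ S := by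
      intro w hw
      rw [List.mem_toFinset] at hw
      have := hsupp w (List.mem_of_mem_tail hw)
      exact_mod_cast this
    have h3 := Finset.card_le_card h2
    rw [List.toFinset_card_of_nodup hcyc.support_nodup, List.length_tail,
      SimpleGraph.Walk.length_support] at h3
    omega)
  have hpl := euler_sub_planar M (dartsOf e (S : Set V)) (dartsOf_rev e _) hneA hb
  omega

end Main

/-- Locally planar even-faced graphs on orientable surfaces are 4-list colourable. -/
theorem four_list (g : ℕ) {D : Type} [Finite D] [Nonempty D] (M : CellMap D)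
    (hg : M.HasGenus g) {V : Type} (G : SimpleGraph V) (e : Drawing G M) (he : e.EvenFaced)
    (hc : ∀ (v : V) (c : G.Walk v v), c.IsCycle → ¬ M.Contractible (c.darts.map e.dart) →
      42 * g + 4 ≤ c.length) : ListColorable G 4 := by
  classical
  intro κ L hL
  have : Fintype D := Fintype.ofFinite D
  have : Finite M.Vertex := by unfold CellMap.Vertex; infer_instance
  have : Finite V := Finite.of_injective _ e.vert_injective
  have : Fintype V := Fintype.ofFinite V
  obtain ⟨f, hf1, hf2⟩ := four_list_aux e hg he hc L hL
  exact ⟨f, fun v => hf1 v (Finset.mem_univ v), fun u v h =>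
    hf2 u (Finset.mem_univ u) v (Finset.mem_univ v) h⟩

end Pool.Agent.H179R2.Surf
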